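import Mathlib

/-! # Facts on the exponential distribution -/

open MeasureTheory ProbabilityTheory Filter Topology Set
open scoped ENNReal

namespace Pool.Agent.H45.DL

lemma ExpM_meas {r : ℝ} : Measurable (fun x : ℝ => exponentialPDF r x) :=
  (measurable_exponentialPDFReal r).ennreal_ofReal

/-- integration against the exponential distribution -/
theorem exp_lintegral {r : ℝ} (hr : 0 < r) {F : ℝ → ℝ≥0∞} (hF : Measurable F) :
    ∫⁻ x, F x ∂expMeasure r = ∫⁻ x in Ioi 0, ENNReal.ofReal (r * Real.exp (-(r * x))) * F x := by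
  have h1 : expMeasure r = volume.withDensity (fun x => exponentialPDF r x) := rfl
  rw [h1, lintegral_withDensity_eq_lintegral_mul _ ExpM_meas hF,
    ← lintegral_indicator measurableSet_Ioi]
  apply lintegral_congr_ae
  have h0 : ∀ᵐ x : ℝ, x ≠ 0 := by
    rw [ae_iff]
    simp
  filter_upwards [h0] with x hx
  rw [Pi.mul_apply, exponentialPDF_eq]
  rcases lt_or_gt_of_ne hx with h | h
  · rw [if_neg (not_le.2 h), Set.indicator_of_notMem (by simpa using h.le)]
    simp
  · rw [if_pos h.le, Set.indicator_of_mem (by simpa using h)]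

theorem exp_pos_ae {r : ℝ} (hr : 0 < r) : ∀ᵐ x ∂expMeasure r, 0 < x := by
  rw [ae_iff]
  have hm : MeasurableSet {x : ℝ | ¬ 0 < x} := by
    have : {x : ℝ | ¬ 0 < x} = Iic 0 := by ext x; simp
    rw [this]; exact measurableSet_Iic
  rw [← lintegral_indicator_one hm, exp_lintegral hr (measurable_one.indicator hm)]
  rw [setLIntegral_congr_fun (g := fun _ => 0) measurableSet_Ioi, lintegral_zero]
  intro x hx
  simp only [mem_Ioi] at hx
  beta_reduce
  rw [Set.indicator_of_notMem (by simpa using hx), mul_zero]

/-- change of the rate -/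
theorem exp_tilt {r s : ℝ} (hr : 0 < r) (hs : 0 < s) {F : ℝ → ℝ≥0∞} (hF : Measurable F) :
    ∫⁻ x, ENNReal.ofReal (Real.exp ((s - r) * x)) * F x ∂expMeasure s =
      ENNReal.ofReal (s / r) * ∫⁻ x, F x ∂expMeasure r := by
  rw [exp_lintegral hs (by fun_prop), exp_lintegral hr hF,
    ← lintegral_const_mul _ (by fun_prop)]
  apply lintegral_congr
  intro x
  rw [← mul_assoc, ← mul_assoc, ← ENNReal.ofReal_mul (by positivity),
    ← ENNReal.ofReal_mul (by positivity)]
  congr 2
  have h1 : Real.exp (-(s * x)) * Real.exp ((s - r) * x) = Real.exp (-(r * x)) := by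
    rw [← Real.exp_add]; congr 1; ring
  rw [mul_assoc, h1]
  field_simp

theorem exp_mgf {r t : ℝ} (hr : 0 < r) (ht : t < r) :
    ∫⁻ x, ENNReal.ofReal (Real.exp (t * x)) ∂expMeasure r = ENNReal.ofReal (r / (r - t)) := by
  have h1 : 0 < r - t := by linarith
  have := isProbabilityMeasure_expMeasure h1
  have h := exp_tilt h1 hr (F := fun _ => 1) measurable_const
  simp only [mul_one, lintegral_const, measure_univ, sub_sub_cancel] at h
  exact h

theorem exp_scale {r c : ℝ} (hr : 0 < r) (hc : 0 < c) :
    (expMeasure r).map (fun x => x / c) = expMeasure (r * c) := by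
  have hm : Measurable (fun x : ℝ => x / c) := by fun_prop
  refine Measure.ext_of_lintegral _ fun F hF => ?_
  have hFc : Measurable (fun x => F (x / c)) := hF.comp hm
  rw [lintegral_map hF hm, exp_lintegral hr hFc, exp_lintegral (mul_pos hr hc) hF]
  rw [← lintegral_indicator measurableSet_Ioi, ← lintegral_indicator measurableSet_Ioi]
  set H : ℝ → ℝ≥0∞ := (Ioi 0).indicator
    (fun x => ENNReal.ofReal (r * Real.exp (-(r * x))) * F (x / c)) with hH
  have hHm : Measurable H := by
    rw [hH]
    exact Measurable.indicator (by fun_prop) measurableSet_Ioi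
  have h1 : ∫⁻ x, H x = ENNReal.ofReal c * ∫⁻ y, H (c * y) := by
    have h2 := Real.smul_map_volume_mul_left hc.ne'
    conv_lhs => rw [← h2]
    rw [lintegral_smul_measure, lintegral_map hHm (by fun_prop), abs_of_pos hc, smul_eq_mul]
  change ∫⁻ x, H x = _
  rw [h1, ← lintegral_const_mul _ (by fun_prop)]
  apply lintegral_congr
  intro y
  rw [hH]
  by_cases hy : 0 < y
  · rw [Set.indicator_of_mem (by simpa using mul_pos hc hy), Set.indicator_of_mem (by simpa using hy),
      ← mul_assoc, ← ENNReal.ofReal_mul hc.le, mul_div_cancel_left₀ y hc.ne']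
    congr 2
    rw [show r * (c * y) = r * c * y by ring]
    ring
  · rw [Set.indicator_of_notMem (by
      simp only [mem_Ioi, not_lt] at hy ⊢
      exact mul_nonpos_of_nonneg_of_nonpos hc.le hy), Set.indicator_of_notMem (by simpa using hy),
      mul_zero]

theorem exp_integrable_pow {r : ℝ} (hr : 0 < r) (k : ℕ) :
    Integrable (fun x => x ^ k) (expMeasure r) := by
  refine ⟨by fun_prop, ?_⟩
  have h2 : ∫⁻ x, ‖x ^ k‖ₑ ∂expMeasure r ≤
      ∫⁻ x, ENNReal.ofReal ((2 / r) ^ k * k.factorial) * ENNReal.ofReal (Real.exp (r / 2 * x))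
        ∂expMeasure r := by
    apply lintegral_mono_ae
    filter_upwards [exp_pos_ae hr] with x hx
    rw [← ENNReal.ofReal_mul (by positivity), Real.enorm_eq_ofReal (by positivity)]
    apply ENNReal.ofReal_le_ofReal
    have h3 := Real.pow_div_factorial_le_exp (r / 2 * x) (by positivity) k
    rw [div_le_iff₀ (by positivity), mul_pow] at h3
    have h4 : x ^ k = (2 / r) ^ k * ((r / 2) ^ k * x ^ k) := by
      rw [← mul_assoc, ← mul_pow]
      have : 2 / r * (r / 2) = 1 := by field_simp
      rw [this, one_pow, one_mul]
    rw [h4, mul_assoc]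
    apply mul_le_mul_of_nonneg_left _ (by positivity)
    linarith
  refine lt_of_le_of_lt h2 ?_
  rw [lintegral_const_mul _ (by fun_prop), exp_mgf hr (by linarith)]
  exact ENNReal.mul_lt_top ENNReal.ofReal_lt_top ENNReal.ofReal_lt_top

lemma ExpM_moment {r : ℝ} (hr : 0 < r) (k : ℕ) :
    ∫ x, x ^ k ∂expMeasure r = k.factorial / r ^ k := by
  rw [integral_eq_lintegral_of_nonneg_ae]
  rotate_left
  · filter_upwards [exp_pos_ae hr] with x hx
    simp only [Pi.zero_apply]
    positivity
  · fun_prop
  rw [exp_lintegral hr (by fun_prop)]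
  have h1 : ∫⁻ x in Ioi (0 : ℝ), ENNReal.ofReal (r * Real.exp (-(r * x))) * ENNReal.ofReal (x ^ k)
      = ∫⁻ x in Ioi (0 : ℝ), ENNReal.ofReal (r * (x ^ (((k : ℝ) + 1) - 1) * Real.exp (-(r * x)))) := by
    apply setLIntegral_congr_fun measurableSet_Ioi
    intro x hx
    beta_reduce
    rw [← ENNReal.ofReal_mul (by positivity)]
    congr 1
    rw [add_sub_cancel_right, Real.rpow_natCast]
    ring
  rw [h1, ← integral_eq_lintegral_of_nonneg_ae, integral_const_mul,
    Real.integral_rpow_mul_exp_neg_mul_Ioi (by positivity) hr, Real.Gamma_nat_eq_factorial]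
  · rw [Real.rpow_add_one (by positivity), Real.rpow_natCast]
    field_simp
    rw [← mul_pow]
    have : 1 / r * r = 1 := by field_simp
    rw [this, one_pow]
  · filter_upwards [ae_restrict_mem measurableSet_Ioi] with x hx
    simp only [mem_Ioi] at hx
    simp only [Pi.zero_apply]
    positivity
  · fun_prop

theorem exp_mean {r : ℝ} (hr : 0 < r) : ∫ x, x ∂expMeasure r = 1 / r := by
  have h := ExpM_moment hr 1
  simpa using h

theorem exp_sq {r : ℝ} (hr : 0 < r) : ∫ x, x ^ 2 ∂expMeasure r = 2 / r ^ 2 := by
  have h := ExpM_moment hr 2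
  simpa using h

/-- general reindexing of an infinite product of probability measures along an injection, with a
map applied to each coordinate -/
theorem infinitePi_reindex {ι κ : Type*} {X Y : Type*} [MeasurableSpace X] [MeasurableSpace Y]
    (μ : ι → Measure X) [∀ i, IsProbabilityMeasure (μ i)] (e : κ → ι) (he : Function.Injective e)
    (g : κ → X → Y) (hg : ∀ i, Measurable (g i)) :
    (Measure.infinitePi μ).map (fun f i => g i (f (e i))) =
      Measure.infinitePi fun i => (μ (e i)).map (g i) := by
  have h1 : (Measure.infinitePi μ).map (fun ω a => ω (e a)) = Measure.infinitePi (fun a => μ (e a)) :=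
    Measure.map_infinitePi_infinitePi_of_inj he
  have h2 := Measure.infinitePi_map_pi (fun a => μ (e a)) (f := g) hg
  rw [← h2, ← h1, Measure.map_map (by fun_prop) (by fun_prop)]
  rfl

/-- peeling off the first coordinate of an infinite product over `ℕ` -/
theorem infinitePi_peel {X : Type*} [MeasurableSpace X] (μ : ℕ → Measure X)
    [∀ i, IsProbabilityMeasure (μ i)] {F : X → (ℕ → X) → ℝ≥0∞}
    (hF : Measurable (Function.uncurry F)) :
    ∫⁻ f, F (f 0) (fun i => f (i + 1)) ∂Measure.infinitePi μ =
      ∫⁻ x, ∫⁻ f, F x f ∂(Measure.infinitePi fun i => μ (i + 1)) ∂μ 0 := by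
  set ν : Measure (ℕ → X) := Measure.infinitePi (fun i => μ (i + 1)) with hν
  let cons : X × (ℕ → X) → (ℕ → X) := fun q i => Nat.casesOn i q.1 q.2
  have hcm : Measurable cons := by
    rw [measurable_pi_iff]
    intro i
    cases i with
    | zero => exact measurable_fst
    | succ i => exact (measurable_pi_apply i).comp measurable_snd
  have hmap : ((μ 0).prod ν).map cons = Measure.infinitePi μ := by
    apply Measure.eq_infinitePi
    intro s t ht
    classical
    obtain ⟨N, hN⟩ : ∃ N, s ⊆ Finset.range (N + 1) := by
      refine ⟨s.sup id, fun i hi => ?_⟩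
      rw [Finset.mem_range]
      exact Nat.lt_succ_of_le (Finset.le_sup (f := id) hi)
    set t' : ℕ → Set X := fun i => if i ∈ s then t i else univ with ht'
    have ht'm : ∀ i, MeasurableSet (t' i) := by
      intro i
      rw [ht']
      beta_reduce
      split_ifs
      · exact ht i
      · exact MeasurableSet.univ
    have e1 : ∏ i ∈ s, μ i (t i) = ∏ i ∈ Finset.range (N + 1), μ i (t' i) := by
      have h2 : ∏ i ∈ s, μ i (t i) = ∏ i ∈ s, μ i (t' i) :=
        Finset.prod_congr rfl fun i hi => by rw [ht']; simp only [hi, if_true]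
      rw [h2]
      apply Finset.prod_subset hN
      intro i _ hi
      rw [ht']
      simp only [hi, if_false, measure_univ]
    rw [e1, Finset.prod_range_succ', Measure.map_apply hcm
      (MeasurableSet.pi s.countable_toSet (fun i _ => ht i))]
    have e2 : cons ⁻¹' (Set.pi s t) = t' 0 ×ˢ Set.pi (Finset.range N : Set ℕ) (fun i => t' (i + 1)) := by
      ext ⟨x, f⟩
      simp only [mem_preimage, Set.mem_pi, mem_prod]
      constructor
      · intro h
        constructor
        · rw [ht']
          beta_reduce
          split_ifs with h0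
          · exact h 0 h0
          · exact mem_univ _
        · intro i _
          rw [ht']
          beta_reduce
          split_ifs with h0
          · exact h (i + 1) h0
          · exact mem_univ _
      · rintro ⟨h0, h1⟩ i hi
        have hi' : i ∈ s := hi
        cases i with
        | zero =>
          rw [ht'] at h0
          simp only [hi', if_true] at h0
          exact h0
        | succ i =>
          have h2 := h1 i (by
            have := hN hi'
            rw [Finset.mem_range] at this
            simp only [Finset.coe_range, mem_Iio]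
            omega)
          rw [ht'] at h2
          simp only [hi', if_true] at h2
          exact h2
    rw [e2, Measure.prod_prod, hν, Measure.infinitePi_pi (μ := fun i => μ (i + 1))
      (fun i _ => ht'm (i + 1)), mul_comm]
  have hG : Measurable (fun f : ℕ → X => F (f 0) (fun i => f (i + 1))) := by
    have h1 : Measurable (fun f : ℕ → X => (f 0, fun i => f (i + 1))) := by fun_prop
    exact hF.comp h1
  have hGc : Measurable (fun q : X × (ℕ → X) => F (cons q 0) (fun i => cons q (i + 1))) := hG.comp hcm
  rw [← hmap, lintegral_map hG hcm, lintegral_prod _ hGc.aemeasurable]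
  rfl

end Pool.Agent.H45.DL
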