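import Pool.Agent.H37.DL.BdryDefs

/-! # The variational formula for boundary last passage percolation (1.4) -/

open MeasureTheory ProbabilityTheory Filter Topology Set
open scoped ENNReal

namespace Pool.Agent.H45.DL

open Pool.Agent.H37.DL

theorem lpp_step_right (w : ℤ → ℕ → ℝ) (a : ℤ) (k j : ℕ) :
    lpp w a k j + w (a + (k + 1)) j ≤ lpp w a (k + 1) j := by
  cases j with
  | zero => rw [lpp.eq_2]
  | succ j =>
    rw [lpp.eq_4]
    gcongr
    exact le_max_left _ _

theorem lpp_step_up (w : ℤ → ℕ → ℝ) (a : ℤ) (k j : ℕ) :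
    lpp w a k j + w (a + k) (j + 1) ≤ lpp w a k (j + 1) := by
  cases k with
  | zero => rw [lpp.eq_3]; simp
  | succ k =>
    rw [lpp.eq_4]
    push_cast
    gcongr
    exact le_max_right _ _

theorem bB_zero_right (w : ℤ → ℕ → ℝ) (ξ V : ℕ → ℝ) (c0 : ℤ) (i : ℕ) :
    bB w ξ V c0 i 0 = ∑ k ∈ Finset.range i, ξ k := by
  induction i with
  | zero => rw [bB.eq_1]; simp
  | succ i ih => rw [bB.eq_2, ih, Finset.sum_range_succ]

theorem bB_zero_left (w : ℤ → ℕ → ℝ) (ξ V : ℕ → ℝ) (c0 : ℤ) (j : ℕ) :
    bB w ξ V c0 0 j = ∑ k ∈ Finset.range j, V k := by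
  induction j with
  | zero => rw [bB.eq_1]; simp
  | succ j ih => rw [bB.eq_3, ih, Finset.sum_range_succ]

theorem bB_succ_succ (w : ℤ → ℕ → ℝ) (ξ V : ℕ → ℝ) (c0 : ℤ) (i j : ℕ) :
    bB w ξ V c0 (i + 1) (j + 1) =
      max (bB w ξ V c0 i (j + 1)) (bB w ξ V c0 (i + 1) j) + w (c0 + i) j := by
  rw [bB.eq_4]

theorem bB_ge_bottom (w : ℤ → ℕ → ℝ) (ξ V : ℕ → ℝ) (c0 : ℤ) (i : ℕ) : ∀ k l : ℕ,
    ∑ m ∈ Finset.range (i + 1), ξ m + lpp w (c0 + i) k l ≤ bB w ξ V c0 (i + 1 + k) (l + 1) := by
  intro k
  induction k with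
  | zero =>
    intro l
    induction l with
    | zero =>
      rw [lpp.eq_1, Nat.add_zero, bB_succ_succ, ← bB_zero_right w ξ V c0]
      gcongr
      exact le_max_right _ _
    | succ l ih =>
      rw [lpp.eq_3, Nat.add_zero, bB_succ_succ, ← add_assoc]
      gcongr
      exact ih.trans (le_max_right _ _)
  | succ k ihk =>
    intro l
    have e : ((c0 + i : ℤ) + ((k : ℤ) + 1)) = c0 + ((i + 1 + k : ℕ) : ℤ) := by push_cast; ring
    induction l with
    | zero =>
      rw [lpp.eq_2, ← Nat.add_assoc, bB_succ_succ, ← add_assoc, e]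
      gcongr
      exact (ihk 0).trans (le_max_left _ _)
    | succ l ih =>
      rw [lpp.eq_4, ← Nat.add_assoc, bB_succ_succ, ← add_assoc, e, ← max_add_add_left]
      gcongr
      · exact ihk (l + 1)
      · exact ih

theorem bB_ge_left (w : ℤ → ℕ → ℝ) (ξ V : ℕ → ℝ) (c0 : ℤ) (j : ℕ) : ∀ k l : ℕ,
    ∑ m ∈ Finset.range (j + 1), V m + lpp (fun a l => w a (l + j)) c0 k l ≤
      bB w ξ V c0 (k + 1) (j + 1 + l) := by
  intro k
  induction k with
  | zero =>
    intro l
    induction l with
    | zero =>
      rw [lpp.eq_1, Nat.add_zero, bB_succ_succ, ← bB_zero_left w ξ V c0]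
      simp only [Nat.cast_zero, add_zero, Nat.zero_add]
      gcongr
      exact le_max_left _ _
    | succ l ih =>
      rw [lpp.eq_3, ← Nat.add_assoc, bB_succ_succ, ← add_assoc]
      have e : l + 1 + j = j + 1 + l := by ring
      simp only [Nat.cast_zero, add_zero, e]
      gcongr
      exact ih.trans (le_max_right _ _)
  | succ k ihk =>
    intro l
    induction l with
    | zero =>
      rw [lpp.eq_2, Nat.add_zero, bB_succ_succ, ← add_assoc]
      push_cast
      simp only [Nat.zero_add]
      gcongr
      have := ihk 0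
      rw [Nat.add_zero] at this
      exact this.trans (le_max_left _ _)
    | succ l ih =>
      have e : l + 1 + j = j + 1 + l := by ring
      rw [lpp.eq_4, ← Nat.add_assoc, bB_succ_succ, ← add_assoc, ← max_add_add_left]
      push_cast
      rw [e]
      gcongr
      exact ihk (l + 1)

theorem bB_attained (w : ℤ → ℕ → ℝ) (ξ V : ℕ → ℝ) (c0 : ℤ) : ∀ M n : ℕ,
    (∃ i ≤ M, bB w ξ V c0 (M + 1) (n + 1) ≤
      ∑ m ∈ Finset.range (i + 1), ξ m + lpp w (c0 + i) (M - i) n) ∨
    ∃ j ≤ n, bB w ξ V c0 (M + 1) (n + 1) ≤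
      ∑ m ∈ Finset.range (j + 1), V m + lpp (fun a l => w a (l + j)) c0 M (n - j) := by
  intro M
  induction M with
  | zero =>
    intro n
    induction n with
    | zero =>
      rw [bB_succ_succ, bB_zero_left, bB_zero_right]
      rcases le_total (∑ k ∈ Finset.range (0 + 1), V k) (∑ k ∈ Finset.range (0 + 1), ξ k) with h | h
      · left
        refine ⟨0, le_rfl, ?_⟩
        rw [max_eq_right h, lpp.eq_1]
      · right
        refine ⟨0, le_rfl, ?_⟩
        rw [max_eq_left h, lpp.eq_1]
        simp
    | succ n ih =>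
      rw [bB_succ_succ, bB_zero_left]
      rcases le_total (∑ k ∈ Finset.range (n + 1 + 1), V k) (bB w ξ V c0 (0 + 1) (n + 1)) with h | h
      · rw [max_eq_right h]
        rcases ih with ⟨i, hi, h'⟩ | ⟨j, hj, h'⟩
        · left
          refine ⟨i, hi, ?_⟩
          obtain rfl : i = 0 := by omega
          rw [lpp.eq_3, ← add_assoc]
          simp only [Nat.cast_zero, add_zero] at h' ⊢
          gcongr
        · right
          refine ⟨j, by omega, ?_⟩
          have e : n + 1 - j = (n - j) + 1 := by omega
          have e2 : n - j + 1 + j = n + 1 := by omega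
          rw [e, lpp.eq_3, ← add_assoc, e2]
          simp only [Nat.cast_zero, add_zero] at h' ⊢
          gcongr
      · rw [max_eq_left h]
        right
        refine ⟨n + 1, le_rfl, ?_⟩
        rw [Nat.sub_self, lpp.eq_1]
        simp
  | succ M ihM =>
    intro n
    induction n with
    | zero =>
      rw [bB_succ_succ, bB_zero_right]
      rcases le_total (bB w ξ V c0 (M + 1) (0 + 1)) (∑ k ∈ Finset.range (M + 1 + 1), ξ k) with h | h
      · rw [max_eq_right h]
        left
        refine ⟨M + 1, le_rfl, ?_⟩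
        rw [Nat.sub_self, lpp.eq_1]
      · rw [max_eq_left h]
        rcases ihM 0 with ⟨i, hi, h'⟩ | ⟨j, hj, h'⟩
        · left
          refine ⟨i, by omega, ?_⟩
          have e : M + 1 - i = (M - i) + 1 := by omega
          rw [e, lpp.eq_2, ← add_assoc]
          have e2 : (c0 + i : ℤ) + (((M - i : ℕ) : ℤ) + 1) = c0 + ((M + 1 : ℕ) : ℤ) := by omega
          rw [e2]
          gcongr
        · right
          refine ⟨j, hj, ?_⟩
          obtain rfl : j = 0 := by omega
          rw [Nat.sub_self, lpp.eq_2, ← add_assoc] at *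
          push_cast
          gcongr
    | succ n ih =>
      rw [bB_succ_succ]
      rcases le_total (bB w ξ V c0 (M + 1) (n + 1 + 1)) (bB w ξ V c0 (M + 1 + 1) (n + 1)) with h | h
      · rw [max_eq_right h]
        rcases ih with ⟨i, hi, h'⟩ | ⟨j, hj, h'⟩
        · left
          refine ⟨i, hi, ?_⟩
          refine (add_le_add_left h' _).trans ?_
          rw [add_assoc]
          gcongr
          refine le_trans (le_of_eq ?_) (lpp_step_up w (c0 + i) (M + 1 - i) n)
          congr 2
          omega
        · right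
          refine ⟨j, by omega, ?_⟩
          refine (add_le_add_left h' _).trans ?_
          rw [add_assoc]
          gcongr
          have e : n + 1 - j = (n - j) + 1 := by omega
          rw [e]
          refine le_trans (le_of_eq ?_) (lpp_step_up (fun a l => w a (l + j)) c0 (M + 1) (n - j))
          congr 2
          omega
      · rw [max_eq_left h]
        rcases ihM (n + 1) with ⟨i, hi, h'⟩ | ⟨j, hj, h'⟩
        · left
          refine ⟨i, by omega, ?_⟩
          refine (add_le_add_left h' _).trans ?_
          rw [add_assoc]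
          gcongr
          have e : M + 1 - i = (M - i) + 1 := by omega
          rw [e]
          refine le_trans (le_of_eq ?_) (lpp_step_right w (c0 + i) (M - i) (n + 1))
          congr 2
          omega
        · right
          refine ⟨j, hj, ?_⟩
          refine (add_le_add_left h' _).trans ?_
          rw [add_assoc]
          gcongr
          refine le_trans (le_of_eq ?_) (lpp_step_right (fun a l => w a (l + j)) c0 M (n + 1 - j))
          congr 2
          omega

end Pool.Agent.H45.DL
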