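import Pool.Agent.H45.DL.Column

/-! # The exponential identity (2.3) -/

open MeasureTheory ProbabilityTheory Filter Topology Set
open scoped ENNReal

namespace Pool.Agent.H45.DL

theorem bl_zero_right (ξ V : ℕ → ℝ) (w : ℕ → ℕ → ℝ) (i : ℕ) :
    bl ξ V w i 0 = ∑ k ∈ Finset.range i, ξ k := by
  induction i with
  | zero => rw [bl.eq_1]; simp
  | succ i ih => rw [bl.eq_2, ih, Finset.sum_range_succ]

theorem bl_zero_left (ξ V : ℕ → ℝ) (w : ℕ → ℕ → ℝ) (j : ℕ) :
    bl ξ V w 0 j = ∑ k ∈ Finset.range j, V k := by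
  induction j with
  | zero => rw [bl.eq_1]; simp
  | succ j ih => rw [bl.eq_3, ih, Finset.sum_range_succ]

theorem bl_succ_succ (ξ V : ℕ → ℝ) (w : ℕ → ℕ → ℝ) (i j : ℕ) :
    bl ξ V w (i + 1) (j + 1) = max (bl ξ V w i (j + 1)) (bl ξ V w (i + 1) j) + w i j := by
  rw [bl.eq_4]

theorem measurable_bl (M n : ℕ) :
    Measurable fun p : (ℕ → ℝ) × (ℕ → ℝ) × (ℕ → ℕ → ℝ) => bl p.1 p.2.1 p.2.2 M n := by
  induction M generalizing n with
  | zero =>
    simp only [bl_zero_left]
    fun_prop
  | succ M ihM =>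
    induction n with
    | zero =>
      simp only [bl_zero_right]
      fun_prop
    | succ n ih =>
      simp only [bl_succ_succ]
      exact ((ihM (n + 1)).max ih).add (by fun_prop)

theorem bl_one (ξ V : ℕ → ℝ) (w : ℕ → ℕ → ℝ) (n : ℕ) :
    bl ξ V w 1 n = ∑ k ∈ Finset.range n, V k + colI (ξ 0) V (w 0) n := by
  induction n with
  | zero => rw [bl_zero_right]; simp [colI]
  | succ n ih =>
    rw [bl_succ_succ, Nat.zero_add, ih, bl_zero_left, Finset.sum_range_succ, colI, add_assoc,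
      max_add_add_left]
    have : max (V n) (colI (ξ 0) V (w 0) n) = V n + max (colI (ξ 0) V (w 0) n - V n) 0 := by
      rw [← max_add_add_left, max_comm]
      ring_nf
    rw [this]
    ring

theorem sum_colJ (x : ℝ) (J u : ℕ → ℝ) (n : ℕ) :
    ∑ k ∈ Finset.range n, J k + colI x J u n = x + ∑ k ∈ Finset.range n, colJ x J u k := by
  induction n with
  | zero => simp [colI]
  | succ n ih =>
    rw [Finset.sum_range_succ, Finset.sum_range_succ, ← add_assoc, ← ih, colI, colJ]
    have : J n + max (colI x J u n - J n) 0 = colI x J u n + max (J n - colI x J u n) 0 := by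
      rw [← max_add_add_left, ← max_add_add_left, max_comm]
      ring_nf
    linarith

theorem bl_succ (ξ V : ℕ → ℝ) (w : ℕ → ℕ → ℝ) (M n : ℕ) :
    bl ξ V w (M + 1) n =
      ξ 0 + bl (fun i => ξ (i + 1)) (colJ (ξ 0) V (w 0)) (fun i => w (i + 1)) M n := by
  induction M generalizing n with
  | zero =>
    rw [Nat.zero_add, bl_one, bl_zero_left, sum_colJ]
  | succ M ihM =>
    induction n with
    | zero =>
      rw [bl_zero_right, bl_zero_right, Finset.sum_range_succ', add_comm]
    | succ n ih =>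
      rw [bl_succ_succ ξ V w (M + 1) n, ihM (n + 1), ih, bl_succ_succ (fun i => ξ (i + 1)) _ _ M n,
        max_add_add_left, add_assoc]

/-- the case of no column -/
theorem ident_zero {al be : ℝ} (hal1 : al < 1) (hbe1 : be < 1) (n : ℕ) :
    ∫⁻ V, ENNReal.ofReal (Real.exp ((al - be) * ∑ k ∈ Finset.range n, V k)) ∂evm (1 - be) =
      ENNReal.ofReal (((1 - be) / (1 - al)) ^ n) := by
  have i3 : IsProbabilityMeasure (expMeasure (1 - be)) :=
    isProbabilityMeasure_expMeasure (by linarith)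
  have i6 : IsProbabilityMeasure (evm (1 - be)) := by
    unfold evm
    infer_instance
  have hr : (0 : ℝ) ≤ (1 - be) / (1 - al) := div_nonneg (by linarith) (by linarith)
  induction n with
  | zero => simp
  | succ n ih =>
    have e : ∀ V : ℕ → ℝ, ENNReal.ofReal (Real.exp ((al - be) * ∑ k ∈ Finset.range (n + 1), V k)) =
        ENNReal.ofReal (Real.exp ((al - be) * V 0)) *
          ENNReal.ofReal (Real.exp ((al - be) * ∑ k ∈ Finset.range n, V (k + 1))) := by
      intro V
      rw [← ENNReal.ofReal_mul (Real.exp_nonneg _), ← Real.exp_add, Finset.sum_range_succ']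
      ring_nf
    simp only [e]
    have m1 : Measurable fun x : ℝ => ENNReal.ofReal (Real.exp ((al - be) * x)) := by fun_prop
    have m2 : Measurable fun V : ℕ → ℝ =>
        ENNReal.ofReal (Real.exp ((al - be) * ∑ k ∈ Finset.range n, V k)) := by fun_prop
    have p := evm_peel (1 - be) (F := fun (x : ℝ) (V : ℕ → ℝ) =>
      ENNReal.ofReal (Real.exp ((al - be) * x)) *
        ENNReal.ofReal (Real.exp ((al - be) * ∑ k ∈ Finset.range n, V k)))
      ((m1.comp measurable_fst).mul (m2.comp measurable_snd))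
    rw [p]
    simp only [lintegral_const_mul _ m2]
    rw [lintegral_mul_const _ m1, ih, exp_mgf (by linarith) (by linarith), pow_succ',
      ENNReal.ofReal_mul hr]
    congr 3
    ring

/-- (2.3).  Induction on `M`, peeling off the first column (`infinitePi_peel`, `bl_succ`,
`exp_tilt` if `M1 = 0`, `column`); `M = 0`: `bl ξ V w 0 n = V 0 + .. + V (n - 1)` and `exp_mgf`. -/
theorem ident {al be : ℝ} (hal0 : 0 < al) (hal1 : al < 1) (hbe0 : 0 < be) (hbe1 : be < 1)
    (M M1 n : ℕ) (h : M1 ≤ M) :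
    ∫⁻ V, ∫⁻ ξ, ∫⁻ w, ENNReal.ofReal (Real.exp ((al - be) *
        (bl ξ V w M n - ∑ i ∈ Finset.range M1, ξ i)))
        ∂(Measure.infinitePi fun _ : ℕ => vm)
        ∂(Measure.infinitePi fun i : ℕ => expMeasure (if i < M1 then be else al))
        ∂evm (1 - be) =
      ENNReal.ofReal ((al / be) ^ (M - M1) * ((1 - be) / (1 - al)) ^ n) := by
  have i1 : IsProbabilityMeasure (expMeasure al) := isProbabilityMeasure_expMeasure hal0
  have i2 : IsProbabilityMeasure (expMeasure be) := isProbabilityMeasure_expMeasure hbe0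
  have i3 : IsProbabilityMeasure (expMeasure (1 - be)) :=
    isProbabilityMeasure_expMeasure (by linarith)
  have i4 : IsProbabilityMeasure (evm (1 - be)) := by
    unfold evm
    infer_instance
  have i5 : ∀ M1 : ℕ, ∀ i : ℕ, IsProbabilityMeasure (expMeasure (if i < M1 then be else al)) := by
    intro M1 i
    split_ifs <;> assumption
  induction M generalizing M1 with
  | zero =>
    obtain rfl : M1 = 0 := by omega
    simp only [bl_zero_left, Finset.range_zero, Finset.sum_empty, sub_zero, lintegral_const,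
      measure_univ, mul_one, Nat.sub_self, pow_zero, one_mul]
    exact ident_zero hal1 hbe1 n
  | succ M ih =>
    -- the part of the integrand to the right of the first column
    set E : ℕ → (ℕ → ℝ) → (ℕ → ℝ) → (ℕ → ℕ → ℝ) → ℝ≥0∞ := fun m ξ V w =>
      ENNReal.ofReal (Real.exp ((al - be) * (bl ξ V w M n - ∑ i ∈ Finset.range m, ξ i))) with hE
    have hEm : ∀ m, Measurable fun p : (ℕ → ℝ) × (ℕ → ℝ) × (ℕ → ℕ → ℝ) =>
        E m p.1 p.2.1 p.2.2 := by
      intro m
      have := measurable_bl M n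
      simp only [hE]
      fun_prop
    set Ψ : ℕ → (ℕ → ℝ) → ℝ≥0∞ := fun m V =>
      ∫⁻ ξ, ∫⁻ w, E m ξ V w ∂(Measure.infinitePi fun _ : ℕ => vm)
        ∂(Measure.infinitePi fun i : ℕ => expMeasure (if i < m then be else al)) with hΨ
    have hΨm : ∀ m, Measurable (Ψ m) := by
      intro m
      have a1 : Measurable fun p : ((ℕ → ℝ) × (ℕ → ℝ)) × (ℕ → ℕ → ℝ) => E m p.1.2 p.1.1 p.2 :=
        (hEm m).comp (by fun_prop : Measurable fun p : ((ℕ → ℝ) × (ℕ → ℝ)) × (ℕ → ℕ → ℝ) =>
          (p.1.2, p.1.1, p.2))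
      have a2 : Measurable fun p : (ℕ → ℝ) × (ℕ → ℝ) =>
          ∫⁻ w, E m p.2 p.1 w ∂(Measure.infinitePi fun _ : ℕ => vm) := a1.lintegral_prod_right'
      exact a2.lintegral_prod_right'
    -- peel the first column
    have step : ∀ (m : ℕ) (r : ℝ) (_ : 0 < r) (ρ : ℕ → ℝ) (_ : ∀ i, 0 < ρ i) (g : ℝ → ℝ≥0∞)
        (_ : Measurable g) (_ : ρ 0 = r)
        (_ : ∀ i, ρ (i + 1) = if i < m then be else al),
        ∫⁻ V, ∫⁻ ξ, ∫⁻ w, g (ξ 0) * E m (fun i => ξ (i + 1)) (colJ (ξ 0) V (w 0))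
            (fun i => w (i + 1)) ∂(Measure.infinitePi fun _ : ℕ => vm)
            ∂(Measure.infinitePi fun i : ℕ => expMeasure (ρ i)) ∂evm (1 - be) =
          ∫⁻ x, g x * ∫⁻ V, ∫⁻ u, Ψ m (colJ x V u) ∂vm ∂evm (1 - be) ∂expMeasure r := by
      intro m r hr ρ hρ g hg hρ0 hρs
      have j1 : ∀ i, IsProbabilityMeasure (expMeasure (ρ i)) := fun i =>
        isProbabilityMeasure_expMeasure (hρ i)
      have j2 : IsProbabilityMeasure (expMeasure r) := isProbabilityMeasure_expMeasure hr
      have hρ' : (Measure.infinitePi fun i : ℕ => expMeasure (ρ (i + 1))) =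
          Measure.infinitePi fun i : ℕ => expMeasure (if i < m then be else al) := by
        congr 1
        funext i
        rw [hρs i]
      have q1 : ∀ V : ℕ → ℝ, ∀ ξ : ℕ → ℝ, ∫⁻ w, g (ξ 0) * E m (fun i => ξ (i + 1))
          (colJ (ξ 0) V (w 0)) (fun i => w (i + 1)) ∂(Measure.infinitePi fun _ : ℕ => vm) =
          ∫⁻ u, ∫⁻ w, g (ξ 0) * E m (fun i => ξ (i + 1)) (colJ (ξ 0) V u) w
            ∂(Measure.infinitePi fun _ : ℕ => vm) ∂vm := by
        intro V ξ
        refine infinitePi_peel (fun _ : ℕ => vm) (F := fun u w => g (ξ 0) *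
          E m (fun i => ξ (i + 1)) (colJ (ξ 0) V u) w) ?_
        have b1 : Measurable fun p : (ℕ → ℝ) × (ℕ → ℕ → ℝ) =>
            ((fun i => ξ (i + 1)), colJ (ξ 0) V p.1, p.2) := by
          refine measurable_const.prodMk ((measurable_colJ.comp
            (by fun_prop : Measurable fun p : (ℕ → ℝ) × (ℕ → ℕ → ℝ) => (ξ 0, V, p.1))).prodMk
              measurable_snd)
        exact measurable_const.mul ((hEm m).comp b1)
      simp only [q1]
      have b2 : Measurable fun p : (((ℕ → ℝ) × (ℝ × (ℕ → ℝ))) × (ℕ → ℝ)) × (ℕ → ℕ → ℝ) =>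
          g p.1.1.2.1 * E m p.1.1.2.2 (colJ p.1.1.2.1 p.1.1.1 p.1.2) p.2 := by
        refine (hg.comp (by fun_prop)).mul ((hEm m).comp (Measurable.prodMk (by fun_prop)
          (Measurable.prodMk ?_ (by fun_prop))))
        exact measurable_colJ.comp (by fun_prop : Measurable fun p :
          (((ℕ → ℝ) × (ℝ × (ℕ → ℝ))) × (ℕ → ℝ)) × (ℕ → ℕ → ℝ) => (p.1.1.2.1, p.1.1.1, p.1.2))
      have b3 := (b2.lintegral_prod_right' (ν := Measure.infinitePi fun _ : ℕ => vm))
      have b4 := b3.lintegral_prod_right' (ν := vm)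
      have q2 : ∀ V : ℕ → ℝ, ∫⁻ ξ, ∫⁻ u, ∫⁻ w, g (ξ 0) *
            E m (fun i => ξ (i + 1)) (colJ (ξ 0) V u) w ∂(Measure.infinitePi fun _ : ℕ => vm) ∂vm
            ∂(Measure.infinitePi fun i : ℕ => expMeasure (ρ i)) =
          ∫⁻ x, ∫⁻ ξ, ∫⁻ u, ∫⁻ w, g x * E m ξ (colJ x V u) w
            ∂(Measure.infinitePi fun _ : ℕ => vm) ∂vm
            ∂(Measure.infinitePi fun i : ℕ => expMeasure (if i < m then be else al))
            ∂expMeasure r := by
        intro V
        rw [← hρ', ← hρ0]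
        refine infinitePi_peel (fun i : ℕ => expMeasure (ρ i)) (F := fun x ξ => ∫⁻ u, ∫⁻ w, g x *
          E m ξ (colJ x V u) w ∂(Measure.infinitePi fun _ : ℕ => vm) ∂vm) ?_
        exact b4.comp (by fun_prop : Measurable fun p : ℝ × (ℕ → ℝ) => (V, (p.1, p.2)))
      simp only [q2]
      have b5 : Measurable fun p : ((ℕ → ℝ) × ℝ) × (ℕ → ℝ) => ∫⁻ u, ∫⁻ w, g p.1.2 *
          E m p.2 (colJ p.1.2 p.1.1 u) w ∂(Measure.infinitePi fun _ : ℕ => vm) ∂vm :=
        b4.comp (by fun_prop : Measurable fun p : ((ℕ → ℝ) × ℝ) × (ℕ → ℝ) =>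
          (p.1.1, (p.1.2, p.2)))
      rw [lintegral_lintegral_swap (b5.lintegral_prod_right').aemeasurable]
      refine lintegral_congr fun x => ?_
      have b6 : Measurable fun p : (ℕ → ℝ) × (ℕ → ℝ) => Ψ m (colJ x p.1 p.2) :=
        (hΨm m).comp (measurable_colJ.comp
          (by fun_prop : Measurable fun p : (ℕ → ℝ) × (ℕ → ℝ) => (x, p.1, p.2)))
      rw [← lintegral_const_mul _ b6.lintegral_prod_right']
      refine lintegral_congr fun V => ?_
      have b6' : Measurable fun u : ℕ → ℝ => Ψ m (colJ x V u) :=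
        b6.comp (by fun_prop : Measurable fun u : ℕ → ℝ => (V, u))
      rw [← lintegral_const_mul _ b6']
      have b7 : Measurable fun p : ((ℕ → ℝ) × (ℕ → ℝ)) × (ℕ → ℕ → ℝ) =>
          g x * E m p.1.1 (colJ x V p.1.2) p.2 :=
        b2.comp (by fun_prop : Measurable fun p : ((ℕ → ℝ) × (ℕ → ℝ)) × (ℕ → ℕ → ℝ) =>
          (((V, (x, p.1.1)), p.1.2), p.2))
      rw [lintegral_lintegral_swap (b7.lintegral_prod_right').aemeasurable]
      refine lintegral_congr fun u => ?_
      have b8 : Measurable fun p : (ℕ → ℝ) × (ℕ → ℕ → ℝ) => E m p.1 (colJ x V u) p.2 :=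
        (hEm m).comp (by fun_prop : Measurable fun p : (ℕ → ℝ) × (ℕ → ℕ → ℝ) =>
          (p.1, colJ x V u, p.2))
      simp only [hΨ]
      rw [← lintegral_const_mul _ b8.lintegral_prod_right']
      refine lintegral_congr fun ξ => ?_
      have b8' : Measurable fun w : ℕ → ℕ → ℝ => E m ξ (colJ x V u) w :=
        b8.comp (by fun_prop : Measurable fun w : ℕ → ℕ → ℝ => (ξ, w))
      rw [← lintegral_const_mul _ b8']
    have c1 : Measurable fun x : ℝ => ENNReal.ofReal (Real.exp ((al - be) * x)) := by fun_prop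
    have c2 : ∀ m, Measurable fun x : ℝ => ∫⁻ V, ∫⁻ u, Ψ m (colJ x V u) ∂vm ∂evm (1 - be) := by
      intro m
      have c3 : Measurable fun p : (ℝ × (ℕ → ℝ)) × (ℕ → ℝ) => Ψ m (colJ p.1.1 p.1.2 p.2) :=
        (hΨm m).comp (measurable_colJ.comp (by fun_prop : Measurable fun p :
          (ℝ × (ℕ → ℝ)) × (ℕ → ℝ) => (p.1.1, p.1.2, p.2)))
      exact (c3.lintegral_prod_right').lintegral_prod_right'
    rcases Nat.eq_zero_or_pos M1 with rfl | hM1
    · -- the first column has the parameter `al`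
      have e1 : ∀ (V ξ : ℕ → ℝ) (w : ℕ → ℕ → ℝ), ENNReal.ofReal (Real.exp ((al - be) *
          (bl ξ V w (M + 1) n - ∑ i ∈ Finset.range 0, ξ i))) =
          ENNReal.ofReal (Real.exp ((al - be) * ξ 0)) *
            E 0 (fun i => ξ (i + 1)) (colJ (ξ 0) V (w 0)) (fun i => w (i + 1)) := by
        intro V ξ w
        simp only [hE]
        rw [← ENNReal.ofReal_mul (Real.exp_nonneg _), ← Real.exp_add, bl_succ]
        simp only [Finset.range_zero, Finset.sum_empty, sub_zero]
        ring_nf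
      simp only [e1]
      have s1 := step 0 al hal0 (fun i => if i < 0 then be else al) (by intro i; simpa using hal0)
        (fun x => ENNReal.ofReal (Real.exp ((al - be) * x))) c1 (by simp) (by simp)
      rw [s1, exp_tilt hbe0 hal0 (c2 0), column hbe0 hbe1 (hΨm 0)]
      have s2 := ih 0 (Nat.zero_le _)
      have s3 : ∫⁻ J, Ψ 0 J ∂evm (1 - be) =
        ENNReal.ofReal ((al / be) ^ (M - 0) * ((1 - be) / (1 - al)) ^ n) := s2
      rw [s3, ← ENNReal.ofReal_mul (by positivity)]
      congr 1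
      rw [Nat.sub_zero, Nat.sub_zero, pow_succ]
      ring
    · obtain ⟨m, rfl⟩ : ∃ m, M1 = m + 1 := ⟨M1 - 1, by omega⟩
      have e1 : ∀ (V ξ : ℕ → ℝ) (w : ℕ → ℕ → ℝ), ENNReal.ofReal (Real.exp ((al - be) *
          (bl ξ V w (M + 1) n - ∑ i ∈ Finset.range (m + 1), ξ i))) =
          1 * E m (fun i => ξ (i + 1)) (colJ (ξ 0) V (w 0)) (fun i => w (i + 1)) := by
        intro V ξ w
        simp only [hE]
        rw [one_mul, bl_succ, Finset.sum_range_succ']
        ring_nf
      simp only [e1]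
      have s1 := step m be hbe0 (fun i => if i < m + 1 then be else al)
        (by intro i; split_ifs <;> assumption)
        (fun _ => 1) measurable_const (by simp) (by intro i; simp)
      rw [s1]
      simp only [one_mul]
      rw [column hbe0 hbe1 (hΨm m)]
      have s2 : ∫⁻ J, Ψ m J ∂evm (1 - be) =
        ENNReal.ofReal ((al / be) ^ (M - m) * ((1 - be) / (1 - al)) ^ n) := ih m (by omega)
      rw [s2, Nat.add_sub_add_right]

end Pool.Agent.H45.DL
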