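import Pool.Agent.H45.DL.BVar
import Pool.Agent.H45.DL.Ident

/-! # The exponential identity of the interface file `Bdry` -/

open MeasureTheory ProbabilityTheory Filter Topology Set
open scoped ENNReal

namespace Pool.Agent.H45.DL

open Pool.Agent.H37.DL

theorem bB_eq_bl (w : ℤ → ℕ → ℝ) (ξ V : ℕ → ℝ) (c0 : ℤ) (i j : ℕ) :
    bB w ξ V c0 i j = bl ξ V (fun i j => w (c0 + i) j) i j := by
  induction i generalizing j with
  | zero => rw [bB_zero_left, bl_zero_left]
  | succ i ihi =>
    induction j with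
    | zero => rw [bB_zero_right, bl_zero_right]
    | succ j ih => rw [bB_succ_succ, bl_succ_succ, ihi, ih]

theorem hh_zero (z : ℤ → ℝ) (al be : ℝ) : hh z al be 0 = 0 := by
  unfold hh
  simp

theorem HH_eq_bl (w : ℤ → ℕ → ℝ) (z v : ℤ → ℝ) (al be : ℝ) (N c n : ℕ) :
    HH w z v al be N c n = bl (xb z al be N) (fun j => v j / (2 * (1 - be)))
      (fun i j => w (1 - N + i) j) (c + N) n - ∑ i ∈ Finset.range N, xb z al be N i := by
  rw [HH_eq, bB_eq_bl, sum_xb, sub_self, hh_zero, zero_add]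

/-- the law of a walk, reindexed and rescaled -/
theorem walk_law {Ω : Type*} [MeasurableSpace Ω] {P : Measure Ω} [IsProbabilityMeasure P]
    {z : Ω → ℤ → ℝ} (hz : IsWalk P z) (e : ℕ → ℤ) (he : Function.Injective e) (r : ℕ → ℝ)
    (hr : ∀ i, 0 < r i) :
    P.map (fun ω i => z ω (e i) / (2 * r i)) = Measure.infinitePi fun i => expMeasure (r i) := by
  have h1 := (hz.indep.precomp he).comp (fun i x => x / (2 * r i)) (fun i => by fun_prop)
  have h2 := h1.map_fun_eq_infinitePi_map (fun i => by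
    have := hz.meas (e i)
    simp only [Function.comp_def]
    fun_prop)
  simp only [Function.comp_def] at h2
  rw [h2]
  congr 1
  funext i
  have h3 := hz.meas (e i)
  have h4 : (P.map fun ω => z ω (e i)).map (fun x => x / (2 * r i)) =
      P.map fun ω => z ω (e i) / (2 * r i) := by
    rw [Measure.map_map (by fun_prop) h3]
    rfl
  have hri := hr i
  rw [← h4, hz.law, exp_scale (by norm_num) (by positivity)]
  congr 1
  ring

/-- the law of the bulk weights, reindexed -/
theorem weights_law {Ω : Type*} [MeasurableSpace Ω] {P : Measure Ω} [IsProbabilityMeasure P]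
    {w : Ω → ℤ → ℕ → ℝ} (hw : IsExpWeights P w) (c0 : ℤ) :
    P.map (fun ω (i j : ℕ) => w ω (c0 + i) j) = Measure.infinitePi fun _ : ℕ => vm := by
  have i1 : IsProbabilityMeasure (expMeasure 1) := isProbabilityMeasure_expMeasure one_pos
  have he : Function.Injective fun p : ℕ × ℕ => ((c0 + p.1 : ℤ), p.2) := by
    rintro ⟨a, b⟩ ⟨a', b'⟩ h
    simp only [Prod.mk.injEq] at h ⊢
    omega
  have h1 := hw.indep.precomp he
  have h2 := h1.map_fun_eq_infinitePi_map (fun i => hw.meas _ _)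
  simp only at h2
  have h3 : ∀ p : ℕ × ℕ, P.map (fun ω => w ω (c0 + p.1) p.2) = expMeasure 1 := fun p => hw.law _ _
  simp only [h3] at h2
  have h4 := Measure.infinitePi_map_curry (fun (_ : ℕ) (_ : ℕ) => expMeasure 1)
  rw [← h2, Measure.map_map (MeasurableEquiv.measurable _)
    (measurable_pi_lambda _ fun p => hw.meas _ _)] at h4
  exact h4

/-- the exact identity (2.3) -/
theorem HH_identity {Ω₁ Ω₂ Ω₃ : Type*} [MeasurableSpace Ω₁] [MeasurableSpace Ω₂]
    [MeasurableSpace Ω₃] {P₁ : Measure Ω₁} {P₂ : Measure Ω₂} {P₃ : Measure Ω₃}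
    [IsProbabilityMeasure P₁] [IsProbabilityMeasure P₂] [IsProbabilityMeasure P₃]
    {w : Ω₁ → ℤ → ℕ → ℝ} (hw : IsExpWeights P₁ w) {z : Ω₂ → ℤ → ℝ} (hz : IsWalk P₂ z)
    {v : Ω₃ → ℤ → ℝ} (hv : IsWalk P₃ v) {al be : ℝ} (ha0 : 0 < al) (ha1 : al < 1)
    (hb0 : 0 < be) (hb1 : be < 1) (N c n : ℕ) :
    ∫⁻ q, ENNReal.ofReal (Real.exp ((al - be) * HH (w q.1) (z q.2.1) (v q.2.2) al be N c n))
        ∂(P₁.prod (P₂.prod P₃)) =
      ENNReal.ofReal ((al / be) ^ c * ((1 - be) / (1 - al)) ^ n) := by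
  have i5 : ∀ i : ℕ, IsProbabilityMeasure (expMeasure (if i < N then be else al)) := by
    intro i
    split_ifs
    exacts [isProbabilityMeasure_expMeasure hb0, isProbabilityMeasure_expMeasure ha0]
  have i3 : IsProbabilityMeasure (expMeasure (1 - be)) :=
    isProbabilityMeasure_expMeasure (by linarith)
  have i6 : IsProbabilityMeasure (evm (1 - be)) := by
    unfold evm
    infer_instance
  set Φ : (ℕ → ℕ → ℝ) × (ℕ → ℝ) × (ℕ → ℝ) → ℝ≥0∞ := fun p => ENNReal.ofReal (Real.exp ((al - be) *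
    (bl p.2.1 p.2.2 p.1 (c + N) n - ∑ i ∈ Finset.range N, p.2.1 i))) with hΦ
  have hΦm : Measurable Φ := by
    have h1 := (measurable_bl (c + N) n).comp (by fun_prop : Measurable fun p :
      (ℕ → ℕ → ℝ) × (ℕ → ℝ) × (ℕ → ℝ) => (p.2.1, p.2.2, p.1))
    simp only [Function.comp_def] at h1
    simp only [hΦ]
    fun_prop
  -- the boundary data
  set W : Ω₁ → ℕ → ℕ → ℝ := fun ω i j => w ω (1 - N + i) j with hW
  set X : Ω₂ → ℕ → ℝ := fun ω i => z ω (1 - N + i) / (2 * if i < N then be else al) with hX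
  set Y : Ω₃ → ℕ → ℝ := fun ω j => v ω j / (2 * (1 - be)) with hY
  have hWm : Measurable W := measurable_pi_lambda _ fun i => measurable_pi_lambda _ fun j =>
    hw.meas _ _
  have hXm : Measurable X := measurable_pi_lambda _ fun i => (hz.meas _).div_const _
  have hYm : Measurable Y := measurable_pi_lambda _ fun i => (hv.meas _).div_const _
  have lW : P₁.map W = Measure.infinitePi fun _ : ℕ => vm := weights_law hw (1 - N)
  have lX : P₂.map X = Measure.infinitePi fun i : ℕ => expMeasure (if i < N then be else al) :=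
    walk_law hz (fun i => 1 - N + i) (by intro a b h; simp only at h; omega) _
      (by intro i; split_ifs <;> assumption)
  have lY : P₃.map Y = evm (1 - be) :=
    walk_law hv (fun i => (i : ℤ)) (by intro a b h; simp only at h; omega) _
      (by intro i; linarith)
  have e0 : ∀ q : Ω₁ × Ω₂ × Ω₃, ENNReal.ofReal (Real.exp ((al - be) *
      HH (w q.1) (z q.2.1) (v q.2.2) al be N c n)) = Φ (W q.1, X q.2.1, Y q.2.2) := by
    intro q
    have e1 : xb (z q.2.1) al be N = X q.2.1 := by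
      funext i
      simp only [xb, hX]
      split_ifs <;> rfl
    rw [HH_eq_bl, e1]
  simp only [e0]
  have e2 : ∫⁻ q : Ω₁ × Ω₂ × Ω₃, Φ (W q.1, X q.2.1, Y q.2.2) ∂(P₁.prod (P₂.prod P₃)) =
      ∫⁻ p, Φ p ∂((P₁.map W).prod ((P₂.map X).prod (P₃.map Y))) := by
    rw [Measure.map_prod_map _ _ hXm hYm, Measure.map_prod_map _ _ hWm (hXm.prodMap hYm),
      lintegral_map hΦm (hWm.prodMap (hXm.prodMap hYm))]
    rfl
  rw [e2, lW, lX, lY, lintegral_prod_symm' _ hΦm, lintegral_prod_symm' _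
    (Measurable.lintegral_prod_left' hΦm)]
  have := ident ha0 ha1 hb0 hb1 (c + N) N n (by omega)
  rw [Nat.add_sub_cancel] at this
  exact this

end Pool.Agent.H45.DL
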