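import Pool.Agent.H45.DL.BExit

/-! # The variational bounds of the interface file `Bdry` -/

open MeasureTheory ProbabilityTheory Filter Topology Set
open scoped ENNReal

namespace Pool.Agent.H45.DL

open Pool.Agent.H37.DL

theorem hh_step (z : ℤ → ℝ) (al be : ℝ) (a : ℤ) :
    hh z al be (a + 1) = hh z al be a + if a + 1 ≤ 0 then z (a + 1) / (2 * be) else
      z (a + 1) / (2 * al) := by
  unfold hh
  split_ifs with h
  · have e1 : Finset.Ioc 0 (a + 1) = ∅ := Finset.Ioc_eq_empty (by omega)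
    have e2 : Finset.Ioc 0 a = ∅ := Finset.Ioc_eq_empty (by omega)
    have e3 : Finset.Ioc a 0 = insert (a + 1) (Finset.Ioc (a + 1) 0) := by
      ext i; simp only [Finset.mem_Ioc, Finset.mem_insert]; omega
    rw [e1, e2, e3, Finset.sum_insert (by simp)]
    simp only [Finset.sum_empty, zero_div]
    ring
  · have e1 : Finset.Ioc a 0 = ∅ := Finset.Ioc_eq_empty (by omega)
    have e2 : Finset.Ioc (a + 1) 0 = ∅ := Finset.Ioc_eq_empty (by omega)
    have e3 : Finset.Ioc 0 (a + 1) = insert (a + 1) (Finset.Ioc 0 a) := by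
      ext i; simp only [Finset.mem_Ioc, Finset.mem_insert]; omega
    rw [e1, e2, e3, Finset.sum_insert (by simp)]
    simp only [Finset.sum_empty, zero_div]
    ring

/-- the bottom boundary of `HH` -/
noncomputable def xb (z : ℤ → ℝ) (al be : ℝ) (N : ℕ) (i : ℕ) : ℝ :=
  if i < N then z (1 - N + i) / (2 * be) else z (1 - N + i) / (2 * al)

theorem sum_xb (z : ℤ → ℝ) (al be : ℝ) (N : ℕ) (i : ℕ) :
    ∑ m ∈ Finset.range i, xb z al be N m =
      hh z al be ((i : ℤ) - N) + (∑ i ∈ Finset.Ioc (-(N : ℤ)) 0, z i) / (2 * be) := by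
  induction i with
  | zero =>
    have e1 : Finset.Ioc (0 : ℤ) (((0 : ℕ) : ℤ) - N) = ∅ := Finset.Ioc_eq_empty (by omega)
    unfold hh
    rw [e1]
    simp
  | succ i ih =>
    have e : (((i + 1 : ℕ) : ℤ) - N) = ((i : ℤ) - N) + 1 := by push_cast; ring
    rw [Finset.sum_range_succ, ih, e, hh_step, xb]
    have e2 : (1 - N + i : ℤ) = (i : ℤ) - N + 1 := by ring
    rw [e2]
    by_cases h : i < N
    · rw [if_pos h, if_pos (by omega)]
      ring
    · rw [if_neg h, if_neg (by omega)]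
      ring

theorem HH_eq (w : ℤ → ℕ → ℝ) (z v : ℤ → ℝ) (al be : ℝ) (N c n : ℕ) :
    HH w z v al be N c n = bB w (xb z al be N) (fun j => v j / (2 * (1 - be))) (1 - N) (c + N) n
      - (∑ i ∈ Finset.Ioc (-(N : ℤ)) 0, z i) / (2 * be) := rfl

theorem hh_le_HH (w : ℤ → ℕ → ℝ) (z v : ℤ → ℝ) (al be : ℝ) {N c n : ℕ} (hn : 1 ≤ n) {a : ℤ}
    (ha : -(N : ℤ) < a) (hac : a ≤ c) :
    hh z al be a + lpp w a (c - a).toNat (n - 1) ≤ HH w z v al be N c n := by
  obtain ⟨i, hi⟩ : ∃ i : ℕ, (i : ℤ) = a + N - 1 := ⟨(a + N - 1).toNat, by omega⟩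
  have h := bB_ge_bottom w (xb z al be N) (fun j => v j / (2 * (1 - be))) (1 - N) i
    (c - a).toNat (n - 1)
  have e1 : i + 1 + (c - a).toNat = c + N := by omega
  have e2 : n - 1 + 1 = n := by omega
  have e3 : (1 - N + i : ℤ) = a := by omega
  have e4 : (((i + 1 : ℕ) : ℤ) - N) = a := by omega
  rw [e1, e2, e3, sum_xb, e4] at h
  rw [HH_eq]
  linarith

theorem sum_vb (v : ℤ → ℝ) (be : ℝ) (j : ℕ) :
    ∑ m ∈ Finset.range (j + 1), v m / (2 * (1 - be)) =
      (∑ k ∈ Finset.range (j + 1), v k) / (2 * (1 - be)) := by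
  rw [Finset.sum_div]

theorem leftExit_le_HH (w : ℤ → ℕ → ℝ) (z v : ℤ → ℝ) (al be : ℝ) {N c n j : ℕ} (hj : j < n)
    (hN : 1 ≤ c + N) : leftExit w z v be N c n j ≤ HH w z v al be N c n := by
  have h := bB_ge_left w (xb z al be N) (fun j => v j / (2 * (1 - be))) (1 - N) j
    (c + N - 1) (n - 1 - j)
  have e1 : c + N - 1 + 1 = c + N := by omega
  have e2 : j + 1 + (n - 1 - j) = n := by omega
  rw [e1, e2, sum_vb] at h
  rw [HH_eq, leftExit, neg_div]
  linarith

theorem HH_attained (w : ℤ → ℕ → ℝ) (z v : ℤ → ℝ) (al be : ℝ) {N c n : ℕ} (hn : 1 ≤ n)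
    (hN : 1 ≤ c + N) :
    (∃ a : ℤ, -(N : ℤ) < a ∧ a ≤ c ∧
        HH w z v al be N c n = hh z al be a + lpp w a (c - a).toNat (n - 1)) ∨
      ∃ j < n, HH w z v al be N c n = leftExit w z v be N c n j := by
  have h := bB_attained w (xb z al be N) (fun j => v j / (2 * (1 - be))) (1 - N) (c + N - 1) (n - 1)
  have e1 : c + N - 1 + 1 = c + N := by omega
  have e2 : n - 1 + 1 = n := by omega
  rw [e1, e2] at h
  rcases h with ⟨i, hi, h⟩ | ⟨j, hj, h⟩
  · left
    refine ⟨1 - N + i, by omega, by omega, le_antisymm ?_ ?_⟩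
    · have e4 : (((i + 1 : ℕ) : ℤ) - N) = 1 - N + i := by push_cast; ring
      have e5 : ((c : ℤ) - (1 - N + i)).toNat = c + N - 1 - i := by omega
      rw [sum_xb, e4] at h
      rw [HH_eq, e5]
      linarith
    · exact hh_le_HH w z v al be hn (by omega) (by omega)
  · right
    refine ⟨j, by omega, le_antisymm ?_ ?_⟩
    · rw [sum_vb] at h
      rw [HH_eq, leftExit, neg_div]
      linarith
    · exact leftExit_le_HH w z v al be (by omega) hN

theorem measurable_lpp {Ω : Type*} [MeasurableSpace Ω] {w : Ω → ℤ → ℕ → ℝ}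
    (hw : ∀ i j, Measurable fun ω => w ω i j) (a : ℤ) (k j : ℕ) :
    Measurable fun ω => lpp (w ω) a k j := by
  induction k generalizing j with
  | zero =>
    induction j with
    | zero => simp only [lpp.eq_1]; exact hw _ _
    | succ j ih => simp only [lpp.eq_3]; exact ih.add (hw _ _)
  | succ k ihk =>
    induction j with
    | zero => simp only [lpp.eq_2]; exact (ihk 0).add (hw _ _)
    | succ j ih => simp only [lpp.eq_4]; exact ((ihk (j + 1)).max ih).add (hw _ _)

theorem measurable_bB {Ω : Type*} [MeasurableSpace Ω] {w : Ω → ℤ → ℕ → ℝ} {ξ V : Ω → ℕ → ℝ}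
    (hw : ∀ i j, Measurable fun ω => w ω i j) (hξ : ∀ i, Measurable fun ω => ξ ω i)
    (hV : ∀ i, Measurable fun ω => V ω i) (c0 : ℤ) (i j : ℕ) :
    Measurable fun ω => bB (w ω) (ξ ω) (V ω) c0 i j := by
  induction i generalizing j with
  | zero =>
    induction j with
    | zero => simp only [bB.eq_1]; exact measurable_const
    | succ j ih => simp only [bB.eq_3]; exact ih.add (hV _)
  | succ k ihk =>
    induction j with
    | zero => simp only [bB.eq_2]; exact (ihk 0).add (hξ _)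
    | succ j ih => simp only [bB.eq_4]; exact ((ihk (j + 1)).max ih).add (hw _ _)

theorem measurable_HH {Ω : Type*} [MeasurableSpace Ω] {w : Ω → ℤ → ℕ → ℝ} {z v : Ω → ℤ → ℝ}
    (hw : ∀ i j, Measurable fun ω => w ω i j) (hz : ∀ i, Measurable fun ω => z ω i)
    (hv : ∀ i, Measurable fun ω => v ω i) (al be : ℝ) (N c n : ℕ) :
    Measurable fun ω => HH (w ω) (z ω) (v ω) al be N c n := by
  unfold HH
  refine Measurable.sub (measurable_bB hw (fun i => ?_) (fun i => (hv _).div_const _) _ _ _) ?_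
  · by_cases h : i < N
    · simp only [if_pos h]
      exact (hz _).div_const _
    · simp only [if_neg h]
      exact (hz _).div_const _
  · exact (Finset.measurable_fun_sum _ fun i _ => hz i).div_const _

end Pool.Agent.H45.DL
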