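import Pool.Agent.H37.DL.Defs

/-!
# Package PK2 of the directed landscape project: definitions

The exponential last passage identities (paper sections 1.4, 2, 3).  Everything lives on the
product of the space of the bulk weights with the space of the boundary variables
`ζ : ℤ → ℝ` (independent, exponential of rate `1/2`) and `v : ℕ → ℝ` (independent, exponential of
rate `1`).
-/

open MeasureTheory ProbabilityTheory Filter Topology Set
open scoped ENNReal

namespace Pool.Agent.H45.DL

open Pool.Agent.H37.DL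

/-- law of the horizontal boundary variables -/
noncomputable def zm : Measure (ℤ → ℝ) := Measure.infinitePi fun _ : ℤ => expMeasure (1 / 2)

/-- law of the vertical boundary variables -/
noncomputable def vm : Measure (ℕ → ℝ) := Measure.infinitePi fun _ : ℕ => expMeasure 1

/-- law of the boundary variables -/
noncomputable def bdm : Measure ((ℤ → ℝ) × (ℕ → ℝ)) := zm.prod vm

instance : IsProbabilityMeasure zm := by
  have : ∀ _ : ℤ, IsProbabilityMeasure (expMeasure (1 / 2)) := fun _ =>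
    isProbabilityMeasure_expMeasure (by norm_num)
  unfold zm
  infer_instance

instance : IsProbabilityMeasure vm := by
  have : ∀ _ : ℕ, IsProbabilityMeasure (expMeasure 1) := fun _ =>
    isProbabilityMeasure_expMeasure (by norm_num)
  unfold vm
  infer_instance

instance : IsProbabilityMeasure bdm := by
  unfold bdm
  infer_instance

/-- The boundary walk with kink at column `k`: steps `ζ i / (2 al)` (rate `al`) to the right of the
kink, steps `ζ i / (2 be)` (rate `be`) to the left of it, value `0` at `k`. -/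
noncomputable def hb (al be : ℝ) (ζ : ℤ → ℝ) (k a : ℤ) : ℝ :=
  (∑ i ∈ Finset.Ioc k a, ζ i) / (2 * al) - (∑ i ∈ Finset.Ioc a k, ζ i) / (2 * be)

/-- last passage time from `(a, 0)` to `(n, n - 1)` -/
noncomputable def Gc (w : ℤ → ℕ → ℝ) (n : ℕ) (a : ℤ) : ℝ := lpp w a ((n : ℤ) - a).toNat (n - 1)

/-- value of the exit through the left boundary (column `a0`) at row `j` -/
noncomputable def Lx (be : ℝ) (ζ : ℤ → ℝ) (v : ℕ → ℝ) (w : ℤ → ℕ → ℝ) (n : ℕ) (a0 k : ℤ)
    (j : ℕ) : ℝ :=
  -((∑ i ∈ Finset.Ioc (a0 - 1) k, ζ i) / (2 * be)) + (∑ l ∈ Finset.range (j + 1), v l) / (1 - be) +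
    lpp (fun i l => w i (l + j)) a0 ((n : ℤ) - a0).toNat (n - 1 - j)

/-- boundary last passage percolation (1.4): `ξ` horizontal boundary, `V` vertical boundary -/
noncomputable def bl (ξ V : ℕ → ℝ) (w : ℕ → ℕ → ℝ) : ℕ → ℕ → ℝ
  | 0, 0 => 0
  | i + 1, 0 => bl ξ V w i 0 + ξ i
  | 0, j + 1 => bl ξ V w 0 j + V j
  | i + 1, j + 1 => max (bl ξ V w i (j + 1)) (bl ξ V w (i + 1) j) + w i j
termination_by i j => i + j

/-- the boundary functional with left corner at column `a0` and kink at column `k` -/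
noncomputable def HB (al be : ℝ) (ζ : ℤ → ℝ) (v : ℕ → ℝ) (w : ℤ → ℕ → ℝ) (n : ℕ) (a0 k : ℤ) : ℝ :=
  bl (fun i => ζ (a0 + i) / (2 * if a0 + i ≤ k then be else al)) (fun j => v j / (1 - be))
    (fun i j => w (a0 + i) j) ((n : ℤ) + 1 - a0).toNat n -
      (∑ i ∈ Finset.Ioc (a0 - 1) k, ζ i) / (2 * be)

/-- the column of the point `x` -/
noncomputable def kk (n : ℕ) (x : ℝ) : ℤ := ⌊sc n * x⌋

/-- the rate with scaled drift `d` -/
noncomputable def ra (n : ℕ) (d : ℝ) : ℝ := 1 / 2 - d * (rt n / sc n) / 4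

/-- the scaled boundary walk -/
noncomputable def hs (n : ℕ) (al be : ℝ) (ζ : ℤ → ℝ) (k a : ℤ) : ℝ :=
  (hb al be ζ k a - 2 * ((a : ℝ) - k)) / rt n

/-- the scaled centred walk -/
noncomputable def wk (n : ℕ) (ζ : ℤ → ℝ) (k a : ℤ) : ℝ :=
  ((∑ i ∈ Finset.Ioc k a, (ζ i - 2)) - ∑ i ∈ Finset.Ioc a k, (ζ i - 2)) / rt n

/-- the scaled value of a quantity centred for the kink `k` -/
noncomputable def cs (n : ℕ) (k : ℤ) (t : ℝ) : ℝ := (t - 4 * n + 2 * k) / rt n

/-- logarithm of the right side of the identity (2.3), centred -/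
noncomputable def expo (n : ℕ) (x dL dR : ℝ) : ℝ :=
  (((n : ℤ) - kk n x).toNat : ℝ) * Real.log (ra n dR / ra n dL) +
    n * Real.log ((1 - ra n dL) / (1 - ra n dR)) -
      (ra n dR - ra n dL) * (4 * n - 2 * kk n x)

/-- the limiting exponent -/
noncomputable def expoL (x dL dR : ℝ) : ℝ :=
  (dL ^ 3 - dR ^ 3) / 24 - x * (dL ^ 2 - dR ^ 2) / 4

/-- the limiting drift -/
noncomputable def dr (x dL dR z : ℝ) : ℝ := dR * max (z - x) 0 - dL * max (x - z) 0

end Pool.Agent.H45.DL
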