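import Pool.Agent.H45.DL.ExpM

/-! # The Burke property, local version (2.1) -/

open MeasureTheory ProbabilityTheory Filter Topology Set
open scoped ENNReal

namespace Pool.Agent.H45.DL

/-- translation, splitting at the diagonal -/
lemma Burke_split {H : ℝ → ℝ → ℝ≥0∞} (hH : Measurable (Function.uncurry H)) :
    ∫⁻ x, ∫⁻ y, H x y = ∫⁻ m, ∫⁻ d in Ioi 0, (H (m + d) m + H m (m + d)) := by
  have hA : MeasurableSet {q : ℝ × ℝ | q.2 < q.1} := measurableSet_lt measurable_snd measurable_fst
  have hm1 : Measurable (fun q : ℝ × ℝ => {q : ℝ × ℝ | q.2 < q.1}.indicator (Function.uncurry H) q) :=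
    hH.indicator hA
  have hm2 : Measurable (fun q : ℝ × ℝ => {q : ℝ × ℝ | q.2 < q.1}ᶜ.indicator (Function.uncurry H) q) :=
    hH.indicator hA.compl
  have h1 : ∫⁻ x, ∫⁻ y, H x y =
      ∫⁻ x, ∫⁻ y, ({q : ℝ × ℝ | q.2 < q.1}.indicator (Function.uncurry H) (x, y)
        + {q : ℝ × ℝ | q.2 < q.1}ᶜ.indicator (Function.uncurry H) (x, y)) := by
    apply lintegral_congr
    intro x
    apply lintegral_congr
    intro y
    by_cases h : (x, y) ∈ {q : ℝ × ℝ | q.2 < q.1}
    · rw [Set.indicator_of_mem h, Set.indicator_of_notMem (by simpa using h), add_zero]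
      rfl
    · rw [Set.indicator_of_notMem h, Set.indicator_of_mem (by simpa using h), zero_add]
      rfl
  have h2 : ∀ x, ∫⁻ y, ({q : ℝ × ℝ | q.2 < q.1}.indicator (Function.uncurry H) (x, y)
        + {q : ℝ × ℝ | q.2 < q.1}ᶜ.indicator (Function.uncurry H) (x, y))
      = (∫⁻ y, {q : ℝ × ℝ | q.2 < q.1}.indicator (Function.uncurry H) (x, y))
        + ∫⁻ y, {q : ℝ × ℝ | q.2 < q.1}ᶜ.indicator (Function.uncurry H) (x, y) := by
    intro x
    exact lintegral_add_left (hm1.comp measurable_prodMk_left) _
  rw [h1]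
  simp only [h2]
  rw [lintegral_add_left (hm1.lintegral_prod_right' (f := fun q : ℝ × ℝ =>
    {q : ℝ × ℝ | q.2 < q.1}.indicator (Function.uncurry H) q))]
  -- first part
  have h3 : ∫⁻ x, ∫⁻ y, {q : ℝ × ℝ | q.2 < q.1}.indicator (Function.uncurry H) (x, y)
      = ∫⁻ m, ∫⁻ d in Ioi 0, H (m + d) m := by
    rw [lintegral_lintegral_swap hm1.aemeasurable]
    apply lintegral_congr
    intro m
    rw [← lintegral_indicator measurableSet_Ioi, ← lintegral_add_left_eq_self _ m]
    apply lintegral_congr
    intro d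
    by_cases h : 0 < d
    · rw [Set.indicator_of_mem (by simpa using h), Set.indicator_of_mem (by simpa using h)]
      rfl
    · rw [Set.indicator_of_notMem (by simpa using h), Set.indicator_of_notMem (by simpa using h)]
  have h4 : ∫⁻ x, ∫⁻ y, {q : ℝ × ℝ | q.2 < q.1}ᶜ.indicator (Function.uncurry H) (x, y)
      = ∫⁻ m, ∫⁻ d in Ioi 0, H m (m + d) := by
    apply lintegral_congr
    intro m
    rw [← lintegral_indicator measurableSet_Ioi, ← lintegral_add_left_eq_self _ m]
    apply lintegral_congr_ae
    have h0 : ∀ᵐ x : ℝ, x ≠ 0 := by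
      rw [ae_iff]
      simp
    filter_upwards [h0] with d hd
    rcases lt_or_gt_of_ne hd with h | h
    · rw [Set.indicator_of_notMem (by simpa using h), Set.indicator_of_notMem (by simpa using h.le)]
    · rw [Set.indicator_of_mem (by simpa using h.le), Set.indicator_of_mem (by simpa using h)]
      rfl
  rw [h3, h4, ← lintegral_add_left]
  · apply lintegral_congr
    intro m
    rw [lintegral_add_left]
    have : Measurable (fun d : ℝ => (m + d, m)) := by fun_prop
    exact hH.comp this
  · have : Measurable (fun q : ℝ × ℝ => (q.1 + q.2, q.1)) := by fun_prop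
    exact (hH.comp this).lintegral_prod_right' (f := fun q : ℝ × ℝ => H (q.1 + q.2) q.1)

/-- the exponential product measure in the coordinates minimum, difference -/
lemma Burke_polar {r s : ℝ} (hr : 0 < r) (hs : 0 < s) (hrs : r + s = 1) {G : ℝ → ℝ → ℝ≥0∞}
    (hG : Measurable (Function.uncurry G)) :
    ∫⁻ x, ∫⁻ y, G x y ∂expMeasure s ∂expMeasure r =
      ∫⁻ m in Ioi 0, ENNReal.ofReal (Real.exp (-m)) * ∫⁻ d in Ioi 0, ENNReal.ofReal (r * s) *
        (ENNReal.ofReal (Real.exp (-(r * d))) * G (m + d) m
          + ENNReal.ofReal (Real.exp (-(s * d))) * G m (m + d)) := by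
  have := isProbabilityMeasure_expMeasure hr
  have := isProbabilityMeasure_expMeasure hs
  have hGx : ∀ x, Measurable (G x) := fun x => hG.comp measurable_prodMk_left
  have hGi : Measurable (fun x => ∫⁻ y, G x y ∂expMeasure s) :=
    hG.lintegral_prod_right' (f := fun q : ℝ × ℝ => G q.1 q.2)
  rw [exp_lintegral hr hGi]
  set H : ℝ → ℝ → ℝ≥0∞ := fun x y => (Ioi (0 : ℝ)).indicator 1 x * ((Ioi (0 : ℝ)).indicator 1 y *
    (ENNReal.ofReal (r * Real.exp (-(r * x))) * (ENNReal.ofReal (s * Real.exp (-(s * y))) * G x y)))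
    with hHdef
  have hI : Measurable (fun x : ℝ => (Ioi (0 : ℝ)).indicator (1 : ℝ → ℝ≥0∞) x) :=
    measurable_one.indicator measurableSet_Ioi
  have hH : Measurable (Function.uncurry H) := by
    have h1 : Measurable (fun q : ℝ × ℝ => (Ioi (0 : ℝ)).indicator (1 : ℝ → ℝ≥0∞) q.1) :=
      hI.comp measurable_fst
    have h2 : Measurable (fun q : ℝ × ℝ => (Ioi (0 : ℝ)).indicator (1 : ℝ → ℝ≥0∞) q.2) :=
      hI.comp measurable_snd
    have h3 : Measurable (fun q : ℝ × ℝ => ENNReal.ofReal (r * Real.exp (-(r * q.1)))) := by fun_prop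
    have h4 : Measurable (fun q : ℝ × ℝ => ENNReal.ofReal (s * Real.exp (-(s * q.2)))) := by fun_prop
    exact h1.mul (h2.mul (h3.mul (h4.mul hG)))
  have e1 : ∫⁻ x in Ioi 0, ENNReal.ofReal (r * Real.exp (-(r * x))) * ∫⁻ y, G x y ∂expMeasure s
      = ∫⁻ x, ∫⁻ y, H x y := by
    rw [← lintegral_indicator measurableSet_Ioi]
    apply lintegral_congr
    intro x
    have h5 : Measurable (fun y : ℝ => (Ioi (0 : ℝ)).indicator 1 y *
        (ENNReal.ofReal (s * Real.exp (-(s * y))) * G x y)) :=
      hI.mul (Measurable.mul (by fun_prop) (hGx x))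
    rw [hHdef]
    by_cases hx : 0 < x
    · have h6 : Measurable (fun y : ℝ => ENNReal.ofReal (s * Real.exp (-(s * y))) * G x y) :=
        Measurable.mul (by fun_prop) (hGx x)
      have h7 : Measurable (fun y : ℝ => (Ioi (0 : ℝ)).indicator
          (fun y : ℝ => ENNReal.ofReal (s * Real.exp (-(s * y))) * G x y) y) :=
        h6.indicator measurableSet_Ioi
      rw [Set.indicator_of_mem (by simpa using hx), exp_lintegral hs (hGx x),
        ← lintegral_indicator measurableSet_Ioi, ← lintegral_const_mul _ h7]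
      apply lintegral_congr
      intro y
      beta_reduce
      rw [Set.indicator_of_mem (show x ∈ Ioi (0 : ℝ) from hx)]
      by_cases hy : 0 < y
      · rw [Set.indicator_of_mem (show y ∈ Ioi (0 : ℝ) from hy),
          Set.indicator_of_mem (show y ∈ Ioi (0 : ℝ) from hy)]
        simp
      · rw [Set.indicator_of_notMem (show y ∉ Ioi (0 : ℝ) from hy),
          Set.indicator_of_notMem (show y ∉ Ioi (0 : ℝ) from hy)]
        simp
    · rw [Set.indicator_of_notMem (by simpa using hx)]
      simp only [Set.indicator_of_notMem (show x ∉ Ioi (0 : ℝ) by simpa using hx), zero_mul,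
        lintegral_zero]
  rw [e1, Burke_split hH, ← lintegral_indicator measurableSet_Ioi]
  apply lintegral_congr
  intro m
  by_cases hm : 0 < m
  · rw [Set.indicator_of_mem (by simpa using hm)]
    have hmeas : Measurable (fun d : ℝ => ENNReal.ofReal (r * s) *
        (ENNReal.ofReal (Real.exp (-(r * d))) * G (m + d) m
          + ENNReal.ofReal (Real.exp (-(s * d))) * G m (m + d))) := by
      have h6 : Measurable (fun d : ℝ => G (m + d) m) := by
        have : Measurable (fun d : ℝ => (m + d, m)) := by fun_prop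
        exact hG.comp this
      have h7 : Measurable (fun d : ℝ => G m (m + d)) := by
        have : Measurable (fun d : ℝ => (m, m + d)) := by fun_prop
        exact hG.comp this
      exact ((Measurable.mul (by fun_prop) h6).add (Measurable.mul (by fun_prop) h7)).const_mul _
    rw [← lintegral_const_mul _ hmeas]
    apply setLIntegral_congr_fun measurableSet_Ioi
    intro d hd
    simp only [mem_Ioi] at hd
    have hmd : 0 < m + d := by linarith
    rw [hHdef]
    beta_reduce
    rw [Set.indicator_of_mem (show m ∈ Ioi (0 : ℝ) from hm),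
      Set.indicator_of_mem (show m + d ∈ Ioi (0 : ℝ) from hmd)]
    simp only [Pi.one_apply, one_mul]
    rw [mul_add (ENNReal.ofReal (r * s)), mul_add (ENNReal.ofReal (Real.exp (-m)))]
    congr 1
    · rw [← mul_assoc, ← mul_assoc, ← mul_assoc, ← ENNReal.ofReal_mul (by positivity),
        ← ENNReal.ofReal_mul (by positivity), ← ENNReal.ofReal_mul (by positivity)]
      congr 2
      have h8 : Real.exp (-m) * Real.exp (-(r * d))
          = Real.exp (-(r * (m + d))) * Real.exp (-(s * m)) := by
        rw [← Real.exp_add, ← Real.exp_add]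
        congr 1
        have : s = 1 - r := by linarith
        rw [this]
        ring
      calc r * Real.exp (-(r * (m + d))) * (s * Real.exp (-(s * m)))
          = r * s * (Real.exp (-(r * (m + d))) * Real.exp (-(s * m))) := by ring
        _ = Real.exp (-m) * (r * s) * Real.exp (-(r * d)) := by rw [← h8]; ring
    · rw [← mul_assoc, ← mul_assoc, ← mul_assoc, ← ENNReal.ofReal_mul (by positivity),
        ← ENNReal.ofReal_mul (by positivity), ← ENNReal.ofReal_mul (by positivity)]
      congr 2
      have h8 : Real.exp (-m) * Real.exp (-(s * d))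
          = Real.exp (-(r * m)) * Real.exp (-(s * (m + d))) := by
        rw [← Real.exp_add, ← Real.exp_add]
        congr 1
        have : s = 1 - r := by linarith
        rw [this]
        ring
      calc r * Real.exp (-(r * m)) * (s * Real.exp (-(s * (m + d))))
          = r * s * (Real.exp (-(r * m)) * Real.exp (-(s * (m + d)))) := by ring
        _ = Real.exp (-m) * (r * s) * Real.exp (-(s * d)) := by rw [← h8]; ring
  · rw [Set.indicator_of_notMem (by simpa using hm)]
    rw [hHdef]
    simp only [Set.indicator_of_notMem (show m ∉ Ioi (0 : ℝ) by simpa using hm), zero_mul,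
      mul_zero, add_zero, lintegral_zero]

/-- (2.1).  With `m = min x y`, `d = x - y` the density of `(x, y)` is
`be (1 - be) exp (-m - be d⁺ - (1 - be) d⁻)`; on the left integrate out `m` (total mass one for
`exp (-m)`), and the variable `u` takes the role of `m`. -/
theorem burke {be : ℝ} (h0 : 0 < be) (h1 : be < 1) {F : ℝ → ℝ → ℝ≥0∞}
    (hF : Measurable (Function.uncurry F)) :
    ∫⁻ x, ∫⁻ y, ∫⁻ u, F (u + max (x - y) 0) (u + max (y - x) 0)
        ∂expMeasure 1 ∂expMeasure (1 - be) ∂expMeasure be =
      ∫⁻ x, ∫⁻ y, F x y ∂expMeasure (1 - be) ∂expMeasure be := by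
  have hs : 0 < 1 - be := by linarith
  have hp1 := isProbabilityMeasure_expMeasure one_pos
  set G : ℝ → ℝ → ℝ≥0∞ := fun x y => ∫⁻ u, F (u + max (x - y) 0) (u + max (y - x) 0)
    ∂expMeasure 1 with hGdef
  have hG : Measurable (Function.uncurry G) := by
    have h2 : Measurable (fun q : (ℝ × ℝ) × ℝ => (q.2 + max (q.1.1 - q.1.2) 0,
        q.2 + max (q.1.2 - q.1.1) 0)) := by fun_prop
    exact (hF.comp h2).lintegral_prod_right' (f := fun q : (ℝ × ℝ) × ℝ =>
      F (q.2 + max (q.1.1 - q.1.2) 0) (q.2 + max (q.1.2 - q.1.1) 0))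
  rw [Burke_polar h0 hs (by ring) hG, Burke_polar h0 hs (by ring) hF]
  -- the inner functions
  obtain ⟨A, hA⟩ : ∃ A : ℝ → ℝ → ℝ≥0∞, ∀ m d, A m d = ENNReal.ofReal (be * (1 - be)) *
        (ENNReal.ofReal (Real.exp (-(be * d))) * F (m + d) m
          + ENNReal.ofReal (Real.exp (-((1 - be) * d))) * F m (m + d)) := ⟨_, fun _ _ => rfl⟩
  have hAm : Measurable (Function.uncurry A) := by
    have hA' : Function.uncurry A = fun q : ℝ × ℝ => ENNReal.ofReal (be * (1 - be)) *
        (ENNReal.ofReal (Real.exp (-(be * q.2))) * F (q.1 + q.2) q.1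
          + ENNReal.ofReal (Real.exp (-((1 - be) * q.2))) * F q.1 (q.1 + q.2)) := by
      funext q
      exact hA q.1 q.2
    rw [hA']
    have h6 : Measurable (fun q : ℝ × ℝ => F (q.1 + q.2) q.1) := by
      have : Measurable (fun q : ℝ × ℝ => (q.1 + q.2, q.1)) := by fun_prop
      exact hF.comp this
    have h7 : Measurable (fun q : ℝ × ℝ => F q.1 (q.1 + q.2)) := by
      have : Measurable (fun q : ℝ × ℝ => (q.1, q.1 + q.2)) := by fun_prop
      exact hF.comp this
    exact ((Measurable.mul (by fun_prop) h6).add (Measurable.mul (by fun_prop) h7)).const_mul _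
  have e1 : ∀ m d : ℝ, 0 < d → G (m + d) m = ∫⁻ u, F (u + d) u ∂expMeasure 1 := by
    intro m d hd
    rw [hGdef]
    apply lintegral_congr
    intro u
    rw [show m + d - m = d by ring, show m - (m + d) = -d by ring, max_eq_left hd.le,
      max_eq_right (by linarith), add_zero]
  have e2 : ∀ m d : ℝ, 0 < d → G m (m + d) = ∫⁻ u, F u (u + d) ∂expMeasure 1 := by
    intro m d hd
    rw [hGdef]
    apply lintegral_congr
    intro u
    rw [show m + d - m = d by ring, show m - (m + d) = -d by ring, max_eq_left hd.le,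
      max_eq_right (by linarith), add_zero]
  obtain ⟨Bf, hB⟩ : ∃ Bf : ℝ → ℝ≥0∞, ∀ d, Bf d = ∫⁻ u, A u d ∂expMeasure 1 := ⟨_, fun _ => rfl⟩
  have e3 : ∀ m : ℝ, ∫⁻ d in Ioi 0, ENNReal.ofReal (be * (1 - be)) *
        (ENNReal.ofReal (Real.exp (-(be * d))) * G (m + d) m
          + ENNReal.ofReal (Real.exp (-((1 - be) * d))) * G m (m + d))
      = ∫⁻ d in Ioi 0, Bf d := by
    intro m
    apply setLIntegral_congr_fun measurableSet_Ioi
    intro d hd
    simp only [mem_Ioi] at hd
    beta_reduce
    rw [e1 m d hd, e2 m d hd]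
    simp only [hB, hA]
    have h6 : Measurable (fun u : ℝ => F (u + d) u) := by
      have : Measurable (fun u : ℝ => (u + d, u)) := by fun_prop
      exact hF.comp this
    have h7 : Measurable (fun u : ℝ => F u (u + d)) := by
      have : Measurable (fun u : ℝ => (u, u + d)) := by fun_prop
      exact hF.comp this
    have h8 : Measurable (fun u : ℝ => ENNReal.ofReal (Real.exp (-(be * d))) * F (u + d) u) :=
      h6.const_mul _
    have h9 : Measurable (fun u : ℝ => ENNReal.ofReal (Real.exp (-((1 - be) * d))) * F u (u + d)) :=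
      h7.const_mul _
    have h10 : Measurable (fun u : ℝ => ENNReal.ofReal (Real.exp (-(be * d))) * F (u + d) u
        + ENNReal.ofReal (Real.exp (-((1 - be) * d))) * F u (u + d)) := h8.add h9
    rw [lintegral_const_mul _ h10,
      lintegral_add_left h8, lintegral_const_mul _ h6, lintegral_const_mul _ h7]
  simp only [e3]
  have hone : ∫⁻ m in Ioi (0 : ℝ), ENNReal.ofReal (Real.exp (-m)) * ∫⁻ d in Ioi 0, Bf d
      = ∫⁻ d in Ioi 0, Bf d := by
    have h2 := exp_lintegral one_pos (F := fun _ => ∫⁻ d in Ioi 0, Bf d) measurable_const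
    simp only [lintegral_const, measure_univ, mul_one, one_mul] at h2
    exact h2.symm
  rw [hone]
  -- swap on the right hand side
  have h3 : ∀ d : ℝ, Bf d = ∫⁻ m in Ioi 0, ENNReal.ofReal (Real.exp (-m)) * A m d := by
    intro d
    have h2 := exp_lintegral one_pos (F := fun m => A m d) hAm.of_uncurry_right
    simp only [one_mul] at h2
    rw [hB]
    exact h2
  have h4 : Measurable (fun q : ℝ × ℝ => ENNReal.ofReal (Real.exp (-q.2)) * A q.2 q.1) := by
    have h5 : Measurable (fun q : ℝ × ℝ => A q.2 q.1) := hAm.comp measurable_swap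
    exact Measurable.mul (by fun_prop) h5
  calc ∫⁻ d in Ioi 0, Bf d
      = ∫⁻ d in Ioi 0, ∫⁻ m in Ioi 0, ENNReal.ofReal (Real.exp (-m)) * A m d := by
        simp only [h3]
    _ = ∫⁻ m in Ioi 0, ∫⁻ d in Ioi 0, ENNReal.ofReal (Real.exp (-m)) * A m d :=
        lintegral_lintegral_swap h4.aemeasurable
    _ = _ := by
        apply lintegral_congr
        intro m
        rw [lintegral_const_mul _ hAm.of_uncurry_left]
        simp only [hA]

end Pool.Agent.H45.DL
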