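import Pool.Agent.H45.DL.Burke
import Pool.Agent.H45.DL.Base

/-! # The Burke property for a column (2.2) -/

open MeasureTheory ProbabilityTheory Filter Topology Set
open scoped ENNReal

namespace Pool.Agent.H45.DL

/-- independent exponential variables of rate `r` -/
noncomputable def evm (r : ℝ) : Measure (ℕ → ℝ) := Measure.infinitePi fun _ : ℕ => expMeasure r

/-- horizontal increments across a column -/
noncomputable def colI (x : ℝ) (J u : ℕ → ℝ) : ℕ → ℝ
  | 0 => x
  | j + 1 => u j + max (colI x J u j - J j) 0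

/-- vertical increments after a column -/
noncomputable def colJ (x : ℝ) (J u : ℕ → ℝ) (j : ℕ) : ℝ := u j + max (J j - colI x J u j) 0

theorem colI_succ (x : ℝ) (J u : ℕ → ℝ) (j : ℕ) :
    colI x J u (j + 1) =
      colI (u 0 + max (x - J 0) 0) (fun i => J (i + 1)) (fun i => u (i + 1)) j := by
  induction j with
  | zero => rfl
  | succ j ih =>
    rw [colI, ih]
    rfl

theorem colJ_succ (x : ℝ) (J u : ℕ → ℝ) (j : ℕ) :
    colJ x J u (j + 1) =
      colJ (u 0 + max (x - J 0) 0) (fun i => J (i + 1)) (fun i => u (i + 1)) j := by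
  rw [colJ, colI_succ]
  rfl

theorem colJ_zero (x : ℝ) (J u : ℕ → ℝ) : colJ x J u 0 = u 0 + max (J 0 - x) 0 := rfl

theorem measurable_colI_apply (j : ℕ) :
    Measurable fun p : ℝ × (ℕ → ℝ) × (ℕ → ℝ) => colI p.1 p.2.1 p.2.2 j := by
  induction j with
  | zero => exact measurable_fst
  | succ j ih =>
    simp only [colI]
    fun_prop

theorem measurable_colJ_apply (j : ℕ) :
    Measurable fun p : ℝ × (ℕ → ℝ) × (ℕ → ℝ) => colJ p.1 p.2.1 p.2.2 j := by
  have := measurable_colI_apply j
  unfold colJ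
  fun_prop

theorem measurable_colJ :
    Measurable fun p : ℝ × (ℕ → ℝ) × (ℕ → ℝ) => colJ p.1 p.2.1 p.2.2 :=
  measurable_pi_lambda _ measurable_colJ_apply

/-- `infinitePi_peel` for a homogeneous product -/
theorem evm_peel (r : ℝ) [IsProbabilityMeasure (expMeasure r)] {F : ℝ → (ℕ → ℝ) → ℝ≥0∞}
    (hF : Measurable (Function.uncurry F)) :
    ∫⁻ f, F (f 0) (fun i => f (i + 1)) ∂evm r = ∫⁻ x, ∫⁻ f, F x f ∂evm r ∂expMeasure r :=
  infinitePi_peel (fun _ : ℕ => expMeasure r) hF

theorem vm_eq : vm = evm 1 := rfl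

/-- expectation of a product of functions of the new vertical increments -/
theorem column_prod {be : ℝ} (h0 : 0 < be) (h1 : be < 1) (N : ℕ) :
    ∀ f : ℕ → ℝ → ℝ≥0∞, (∀ i, Measurable (f i)) →
    ∫⁻ x, ∫⁻ J, ∫⁻ u, ∏ i ∈ Finset.range N, f i (colJ x J u i) ∂vm ∂evm (1 - be) ∂expMeasure be =
      ∏ i ∈ Finset.range N, ∫⁻ y, f i y ∂expMeasure (1 - be) := by
  have i1 : IsProbabilityMeasure (expMeasure 1) := isProbabilityMeasure_expMeasure one_pos
  have i2 : IsProbabilityMeasure (expMeasure be) := isProbabilityMeasure_expMeasure h0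
  have i3 : IsProbabilityMeasure (expMeasure (1 - be)) :=
    isProbabilityMeasure_expMeasure (by linarith)
  have i4 : ∀ r : ℝ, [IsProbabilityMeasure (expMeasure r)] → IsProbabilityMeasure (evm r) := by
    intro r hr
    unfold evm
    infer_instance
  have i5 := i4 1
  have i6 := i4 (1 - be)
  induction N with
  | zero =>
    intro f hf
    simp
  | succ N ih =>
    intro f hf
    -- the product over the rows above the first
    set G : ℝ → (ℕ → ℝ) → (ℕ → ℝ) → ℝ≥0∞ := fun x J u =>
      ∏ i ∈ Finset.range N, f (i + 1) (colJ x J u i) with hG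
    have hGm : Measurable fun p : ℝ × (ℕ → ℝ) × (ℕ → ℝ) => G p.1 p.2.1 p.2.2 := by
      refine Finset.measurable_fun_prod _ fun i _ => ?_
      exact (hf (i + 1)).comp (measurable_colJ_apply i)
    have e : ∀ x J u, ∏ i ∈ Finset.range (N + 1), f i (colJ x J u i) =
        f 0 (u 0 + max (J 0 - x) 0) *
          G (u 0 + max (x - J 0) 0) (fun i => J (i + 1)) (fun i => u (i + 1)) := by
      intro x J u
      rw [Finset.prod_range_succ', mul_comm, colJ_zero]
      congr 1
      refine Finset.prod_congr rfl fun i _ => ?_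
      rw [colJ_succ]
    simp only [e]
    set H : ℝ → ℝ≥0∞ := fun x => ∫⁻ J, ∫⁻ u, G x J u ∂vm ∂evm (1 - be) with hH
    have hHm : Measurable H := by
      have a1 : Measurable fun p : (ℝ × (ℕ → ℝ)) × (ℕ → ℝ) => G p.1.1 p.1.2 p.2 :=
        hGm.comp (by fun_prop : Measurable fun p : (ℝ × (ℕ → ℝ)) × (ℕ → ℝ) => (p.1.1, p.1.2, p.2))
      have a2 : Measurable fun p : ℝ × (ℕ → ℝ) => ∫⁻ u, G p.1 p.2 u ∂vm := a1.lintegral_prod_right'
      exact a2.lintegral_prod_right'
    have key : ∀ x, ∫⁻ J, ∫⁻ u, f 0 (u 0 + max (J 0 - x) 0) *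
          G (u 0 + max (x - J 0) 0) (fun i => J (i + 1)) (fun i => u (i + 1)) ∂vm ∂evm (1 - be) =
        ∫⁻ y, ∫⁻ u, f 0 (u + max (y - x) 0) * H (u + max (x - y) 0) ∂expMeasure 1
          ∂expMeasure (1 - be) := by
      intro x
      -- peel the first row
      have p1 : ∀ J : ℕ → ℝ, ∫⁻ u, f 0 (u 0 + max (J 0 - x) 0) *
            G (u 0 + max (x - J 0) 0) (fun i => J (i + 1)) (fun i => u (i + 1)) ∂vm =
          ∫⁻ a, ∫⁻ u, f 0 (a + max (J 0 - x) 0) *
            G (a + max (x - J 0) 0) (fun i => J (i + 1)) u ∂vm ∂expMeasure 1 := by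
        intro J
        rw [vm_eq]
        refine evm_peel 1 (F := fun a u => f 0 (a + max (J 0 - x) 0) *
            G (a + max (x - J 0) 0) (fun i => J (i + 1)) u) ?_
        refine ((hf 0).comp (by fun_prop)).mul
          (hGm.comp (by fun_prop : Measurable fun p : ℝ × (ℕ → ℝ) =>
            (p.1 + max (x - J 0) 0, (fun i => J (i + 1)), p.2)))
      simp only [p1]
      have m1 : Measurable fun p : ((ℝ × (ℕ → ℝ)) × ℝ) × (ℕ → ℝ) =>
          f 0 (p.1.2 + max (p.1.1.1 - x) 0) *
            G (p.1.2 + max (x - p.1.1.1) 0) p.1.1.2 p.2 := by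
        refine ((hf 0).comp (by fun_prop)).mul
          (hGm.comp (by fun_prop : Measurable fun p : ((ℝ × (ℕ → ℝ)) × ℝ) × (ℕ → ℝ) =>
            (p.1.2 + max (x - p.1.1.1) 0, p.1.1.2, p.2)))
      have m2 := m1.lintegral_prod_right' (ν := vm)
      have m3 : Measurable fun p : ℝ × (ℕ → ℝ) => ∫⁻ a, ∫⁻ u, f 0 (a + max (p.1 - x) 0) *
            G (a + max (x - p.1) 0) p.2 u ∂vm ∂expMeasure 1 := m2.lintegral_prod_right'
      have p2 := evm_peel (1 - be) (F := fun y J => ∫⁻ a, ∫⁻ u, f 0 (a + max (y - x) 0) *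
            G (a + max (x - y) 0) J u ∂vm ∂expMeasure 1) m3
      rw [p2]
      refine lintegral_congr fun y => ?_
      rw [lintegral_lintegral_swap]
      · refine lintegral_congr fun a => ?_
        have m4 : Measurable fun p : (ℕ → ℝ) × (ℕ → ℝ) => G (a + max (x - y) 0) p.1 p.2 :=
          hGm.comp (by fun_prop : Measurable fun p : (ℕ → ℝ) × (ℕ → ℝ) =>
            (a + max (x - y) 0, p.1, p.2))
        have m5 : ∀ J, Measurable fun u => G (a + max (x - y) 0) J u := fun J =>
          m4.comp (by fun_prop : Measurable fun u : ℕ → ℝ => (J, u))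
        simp only [lintegral_const_mul _ (m5 _)]
        rw [lintegral_const_mul _ m4.lintegral_prod_right']
      · have m6 : Measurable fun p : (ℕ → ℝ) × ℝ => ∫⁻ u, f 0 (p.2 + max (y - x) 0) *
            G (p.2 + max (x - y) 0) p.1 u ∂vm :=
          m2.comp (by fun_prop : Measurable fun p : (ℕ → ℝ) × ℝ => ((y, p.1), p.2))
        exact m6.aemeasurable
    simp only [key]
    have hb := burke h0 h1 (F := fun x y => f 0 y * H x)
      (((hf 0).comp measurable_snd).mul (hHm.comp measurable_fst))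
    rw [hb]
    have hH2 : ∫⁻ x, H x ∂expMeasure be =
        ∏ i ∈ Finset.range N, ∫⁻ y, f (i + 1) y ∂expMeasure (1 - be) :=
      ih (fun i => f (i + 1)) fun i => hf (i + 1)
    simp only [lintegral_mul_const _ (hf 0)]
    rw [lintegral_const_mul _ hHm, hH2, Finset.prod_range_succ', mul_comm]

/-- (2.2).  Finite-dimensional version by induction on the number of rows
(`colJ x J u (i + 1) = colJ (colI x J u 1) (J ∘ succ) (u ∘ succ) i`, `infinitePi_peel`, `burke`),
then uniqueness of infinite products (`Measure.eq_infinitePi`). -/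
theorem column {be : ℝ} (h0 : 0 < be) (h1 : be < 1) {F : (ℕ → ℝ) → ℝ≥0∞} (hF : Measurable F) :
    ∫⁻ x, ∫⁻ J, ∫⁻ u, F (colJ x J u) ∂vm ∂evm (1 - be) ∂expMeasure be =
      ∫⁻ J, F J ∂evm (1 - be) := by
  have i2 : IsProbabilityMeasure (expMeasure be) := isProbabilityMeasure_expMeasure h0
  have i3 : IsProbabilityMeasure (expMeasure (1 - be)) :=
    isProbabilityMeasure_expMeasure (by linarith)
  have i6 : IsProbabilityMeasure (evm (1 - be)) := by
    unfold evm
    infer_instance
  have nest : ∀ {F : (ℕ → ℝ) → ℝ≥0∞}, Measurable F →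
      ∫⁻ x, ∫⁻ J, ∫⁻ u, F (colJ x J u) ∂vm ∂evm (1 - be) ∂expMeasure be =
        ∫⁻ J, F J ∂(((expMeasure be).prod ((evm (1 - be)).prod vm)).map
          fun p : ℝ × (ℕ → ℝ) × (ℕ → ℝ) => colJ p.1 p.2.1 p.2.2) := by
    intro F hF
    have h : Measurable fun p : ℝ × (ℕ → ℝ) × (ℕ → ℝ) => F (colJ p.1 p.2.1 p.2.2) :=
      hF.comp measurable_colJ
    rw [lintegral_map hF measurable_colJ, lintegral_prod _ h.aemeasurable]
    refine lintegral_congr fun x => ?_
    have h' : Measurable fun p : (ℕ → ℝ) × (ℕ → ℝ) => F (colJ x p.1 p.2) :=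
      h.comp (by fun_prop : Measurable fun p : (ℕ → ℝ) × (ℕ → ℝ) => (x, p))
    rw [lintegral_prod _ h'.aemeasurable]
  rw [nest hF]
  congr 1
  change _ = Measure.infinitePi _
  refine Measure.eq_infinitePi _ fun s t ht => ?_
  classical
  obtain ⟨N, hN⟩ : ∃ N, s ⊆ Finset.range N :=
    ⟨s.sup id + 1, fun i hi => Finset.mem_range.2
      (Nat.lt_succ_of_le (Finset.le_sup (f := id) hi))⟩
  have hms : MeasurableSet (Set.pi (s : Set ℕ) t) :=
    MeasurableSet.pi (Finset.countable_toSet s) fun i _ => ht i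
  rw [← lintegral_indicator_one hms, ← nest (measurable_one.indicator hms)]
  have hp := column_prod h0 h1 N (fun i => if i ∈ s then (t i).indicator 1 else 1) (by
    intro i
    by_cases hi : i ∈ s
    · simp only [if_pos hi]
      exact measurable_one.indicator (ht i)
    · simp only [if_neg hi]
      exact measurable_one)
  have e1 : ∀ J : ℕ → ℝ, ∏ i ∈ Finset.range N,
      (if i ∈ s then (t i).indicator (1 : ℝ → ℝ≥0∞) else 1) (J i) =
        (Set.pi (s : Set ℕ) t).indicator 1 J := by
    intro J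
    by_cases hJ : J ∈ Set.pi (s : Set ℕ) t
    · rw [indicator_of_mem hJ]
      refine Finset.prod_eq_one fun i _ => ?_
      by_cases hi : i ∈ s
      · rw [if_pos hi, indicator_of_mem (hJ i hi)]
        rfl
      · rw [if_neg hi]
        rfl
    · rw [indicator_of_notMem hJ]
      simp only [Set.mem_pi, not_forall] at hJ
      obtain ⟨i, hi, hJi⟩ := hJ
      refine Finset.prod_eq_zero (hN hi) ?_
      rw [if_pos (by exact_mod_cast hi), indicator_of_notMem hJi]
  simp only [e1] at hp
  rw [hp]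
  rw [← Finset.prod_subset hN]
  · refine Finset.prod_congr rfl fun i hi => ?_
    simp only [if_pos hi]
    rw [lintegral_indicator_one (ht i)]
  · intro i _ hi
    simp only [if_neg hi]
    simp

end Pool.Agent.H45.DL
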